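import Mathlib

/-!
Definitions for MP_026d7f_an (hyperplanes of maximal relative projection constant).
-/
open Module

namespace R197K26

/-- The relative projection constant `λ(Y, X)`: infimum of the norms of the (bounded) linear
projections of `X` onto `Y`. -/
noncomputable def relProj (X : Type*) [NormedAddCommGroup X] [NormedSpace ℝ X]
    (Y : Submodule ℝ X) : ℝ :=
  sInf {r : ℝ | ∃ P : X →L[ℝ] X, (∀ x, P x ∈ Y) ∧ (∀ y ∈ Y, P y = y) ∧ r = ‖P‖}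

/-- The hyperplanes `Y` of `X` with `λ(Y, X) = 2 - 2 / n`, `n = dim X`. -/
def maxHyp (X : Type*) [NormedAddCommGroup X] [NormedSpace ℝ X] : Set (Submodule ℝ X) :=
  {Y | finrank ℝ Y + 1 = finrank ℝ X ∧ relProj X Y = 2 - 2 / (finrank ℝ X : ℝ)}

/-- `N(n)`: the supremum over all `n`-dimensional real normed spaces `X` of the number `N(X)` of
hyperplanes of `X` of maximal relative projection constant. -/
noncomputable def NN (n : ℕ) : ℕ∞ :=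
  sSup {m : ℕ∞ | ∃ (X : Type) (_ : NormedAddCommGroup X) (_ : NormedSpace ℝ X),
    finrank ℝ X = n ∧ m = (maxHyp X).encard}

/-- An extremal system. -/
structure IsSys {X : Type*} [NormedAddCommGroup X] [NormedSpace ℝ X] (n : ℕ)
    (x : Fin n → X) (u : Fin n → (X →L[ℝ] ℝ)) : Prop where
  norm_x : ∀ i, ‖x i‖ ≤ 1
  norm_u : ∀ j, ‖u j‖ ≤ 1
  val : ∀ i j, u j (x i) = if i = j then -1 else 1

/-- functionals occurring in extremal systems -/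
def sysFun (X : Type*) [NormedAddCommGroup X] [NormedSpace ℝ X] (n : ℕ) : Set (X →L[ℝ] ℝ) :=
  {w | ∃ (x : Fin n → X) (u : Fin n → (X →L[ℝ] ℝ)) (j : Fin n), IsSys n x u ∧ u j = w}

/-- hyperplanes defined by extremal systems -/
def sysHyp (X : Type*) [NormedAddCommGroup X] [NormedSpace ℝ X] (n : ℕ) : Set (Submodule ℝ X) :=
  {Y | ∃ (x : Fin n → X) (u : Fin n → (X →L[ℝ] ℝ)), IsSys n x u ∧
    Y = LinearMap.ker ((∑ j, u j : X →L[ℝ] ℝ) : X →ₗ[ℝ] ℝ)}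

/-- Piece P1 (minimax + Caratheodory). -/
def Stm_P1 : Prop := ∀ (X : Type) [NormedAddCommGroup X] [NormedSpace ℝ X] (n : ℕ),
  finrank ℝ X = n → 2 ≤ n → ∀ f : X →L[ℝ] ℝ, f ≠ 0 →
  ∃ (m : ℕ) (l : Fin m → ℝ) (x : Fin m → X) (g : Fin m → (X →L[ℝ] ℝ)) (c : ℝ),
    m ≤ n ∧ (∀ k, 0 < l k) ∧ ∑ k, l k = 1 ∧ (∀ k, ‖x k‖ ≤ 1) ∧ (∀ k, ‖g k‖ ≤ 1) ∧
    ∑ k, (l k * f (x k)) • g k = c • f ∧
    relProj X (LinearMap.ker (f : X →ₗ[ℝ] ℝ)) ≤ ∑ k, l k * g k (x k) - c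

/-- Piece P2 (equality analysis in Bohnenblust's inequality). -/
def Stm_P2 : Prop := ∀ (X : Type) [NormedAddCommGroup X] [NormedSpace ℝ X] (n m : ℕ),
  3 ≤ n → m ≤ n → ∀ f : X →L[ℝ] ℝ, f ≠ 0 →
  ∀ (l : Fin m → ℝ) (x : Fin m → X) (g : Fin m → (X →L[ℝ] ℝ)) (c : ℝ),
    (∀ k, 0 < l k) → ∑ k, l k = 1 → (∀ k, ‖x k‖ ≤ 1) → (∀ k, ‖g k‖ ≤ 1) →
    ∑ k, (l k * f (x k)) • g k = c • f →
    2 - 2 / (n : ℝ) ≤ ∑ k, l k * g k (x k) - c →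
    ∃ (x' : Fin n → X) (u : Fin n → (X →L[ℝ] ℝ)) (b : ℝ),
      b ≠ 0 ∧ IsSys n x' u ∧ ∑ j, u j = b • f

/-- Piece P3a: the vectors of a system are linearly independent, and the unit ball has bounded
coordinates. -/
def Stm_P3a : Prop := ∀ (X : Type) [NormedAddCommGroup X] [NormedSpace ℝ X] (n : ℕ),
  finrank ℝ X = n → 3 ≤ n → ∀ (x : Fin n → X) (u : Fin n → (X →L[ℝ] ℝ)), IsSys n x u →
    LinearIndependent ℝ x ∧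
    ∀ y : X, ‖y‖ ≤ 1 → ∃ t : Fin n → ℝ, (∀ i, |t i| ≤ 2) ∧ y = ∑ i, t i • x i

/-- Piece P3b: packing by volume. -/
def Stm_P3b : Prop := ∀ (X : Type) [NormedAddCommGroup X] [NormedSpace ℝ X] (n : ℕ),
  finrank ℝ X = n → 1 ≤ n → ∀ U : Set (X →L[ℝ] ℝ),
    (∀ w ∈ U, ‖w‖ ≤ 1 ∧ ∃ p : Fin n → X, (∀ k, ‖p k‖ ≤ 1) ∧ (∀ k, w (p k) = 1) ∧
      ∀ y : X, ‖y‖ ≤ 1 → ∃ t : Fin n → ℝ, (∀ i, |t i| ≤ 2) ∧ y = ∑ i, t i • p i) →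
    U.encard ≤ (((4 * n) ^ n : ℕ) : ℕ∞)

/-- Piece P4. -/
def Stm_P4 : Prop := ∀ (X : Type) [NormedAddCommGroup X] [NormedSpace ℝ X],
  finrank ℝ X = 3 → (sysHyp X 3).encard ≤ 4

/-- Piece P5. -/
def Stm_P5 : Prop := ∀ (X : Type) [NormedAddCommGroup X] [NormedSpace ℝ X],
  finrank ℝ X = 4 → (sysHyp X 4).encard ≤ 8

/-- Piece P6. -/
def Stm_P6 : Prop := ∀ n : ℕ, 3 ≤ n → ((2 ^ (n - 1) : ℕ) : ℕ∞) ≤ (maxHyp (Fin n → ℝ)).encard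

/-- Final theorem. -/
def Stm_Main : Prop :=
  (∀ n : ℕ, 3 ≤ n → ((2 ^ (n - 1) : ℕ) : ℕ∞) ≤ NN n ∧ NN n ≤ (((4 * n) ^ (n ^ 2) : ℕ) : ℕ∞)) ∧
  NN 3 = 4 ∧ NN 4 = 8

end R197K26
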