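import Pool.Agent.R197.K26.Defs

open Module Set

namespace R197K26

/-- (a): maximal hyperplanes come from extremal systems -/
theorem maxHyp_subset (h1 : Stm_P1) (h2 : Stm_P2) (X : Type) [NormedAddCommGroup X]
    [NormedSpace ℝ X] (n : ℕ) (hfr : finrank ℝ X = n) (hn : 3 ≤ n) :
    maxHyp X ⊆ sysHyp X n := by
  rintro Y ⟨hY1, hY2⟩
  have : FiniteDimensional ℝ X := FiniteDimensional.of_finrank_pos (by omega)
  -- a functional with kernel Y
  obtain ⟨f, hf0, hfY⟩ : ∃ f : X →L[ℝ] ℝ, f ≠ 0 ∧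
      Y = LinearMap.ker (f : X →ₗ[ℝ] ℝ) := by
    have hlt : Y ≠ ⊤ := by
      intro h
      rw [h, finrank_top] at hY1
      omega
    obtain ⟨v, hv⟩ : ∃ v, v ∉ Y := by
      by_contra hcon
      push Not at hcon
      exact hlt (Submodule.eq_top_iff'.2 hcon)
    obtain ⟨g, hg1, hg2⟩ := Submodule.exists_le_ker_of_notMem hv
    refine ⟨LinearMap.toContinuousLinearMap g, ?_, ?_⟩
    · intro h0
      apply hg1
      have : LinearMap.toContinuousLinearMap g v = 0 := by rw [h0]; rfl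
      exact this
    · have hg : g ≠ 0 := by
        rintro rfl
        exact hg1 rfl
      have e1 := Module.Dual.finrank_ker_add_one_of_ne_zero hg
      have e2 : Y = LinearMap.ker g := by
        refine Submodule.eq_of_le_of_finrank_eq hg2 ?_
        omega
      exact e2
  obtain ⟨m, l, x, g, c, hm, hl, hl1, hx, hg, heq, hle⟩ := h1 X n hfr (by omega) f hf0
  rw [← hfY, hY2, hfr] at hle
  obtain ⟨x', u, b, hb, hS, hsum⟩ := h2 X n m hn hm f hf0 l x g c hl hl1 hx hg heq hle
  refine ⟨x', u, hS, ?_⟩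
  rw [hsum, hfY]
  ext y
  rw [LinearMap.mem_ker, LinearMap.mem_ker]
  change f y = 0 ↔ (b • f) y = 0
  rw [ContinuousLinearMap.smul_apply, smul_eq_mul, mul_eq_zero]
  constructor
  · intro h; exact Or.inr h
  · rintro (h | h)
    · exact absurd h hb
    · exact h

theorem sysFun_card (h3a : Stm_P3a) (h3b : Stm_P3b) (X : Type) [NormedAddCommGroup X]
    [NormedSpace ℝ X] (n : ℕ) (hfr : finrank ℝ X = n) (hn : 3 ≤ n) :
    (sysFun X n).encard ≤ (((4 * n) ^ n : ℕ) : ℕ∞) := by
  refine h3b X n hfr (by omega) _ ?_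
  rintro w ⟨x, u, j, hS, rfl⟩
  refine ⟨hS.norm_u j, fun k => if k = j then -x k else x k, ?_, ?_, ?_⟩
  · intro k
    change ‖if k = j then -x k else x k‖ ≤ 1
    split_ifs
    · rw [norm_neg]; exact hS.norm_x k
    · exact hS.norm_x k
  · intro k
    change u j (if k = j then -x k else x k) = 1
    split_ifs with h
    · rw [map_neg, hS.val, if_pos h, neg_neg]
    · rw [hS.val, if_neg h]
  · intro y hy
    obtain ⟨t, ht1, ht2⟩ := (h3a X n hfr hn x u hS).2 y hy
    refine ⟨fun k => if k = j then -t k else t k, ?_, ?_⟩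
    · intro i
      change |if i = j then -t i else t i| ≤ 2
      split_ifs
      · rw [abs_neg]; exact ht1 i
      · exact ht1 i
    · rw [ht2]
      refine Finset.sum_congr rfl fun i _ => ?_
      change t i • x i = (if i = j then -t i else t i) • (if i = j then -x i else x i)
      split_ifs
      · rw [neg_smul_neg]
      · rfl

theorem sysHyp_card (h3a : Stm_P3a) (h3b : Stm_P3b) (X : Type) [NormedAddCommGroup X]
    [NormedSpace ℝ X] (n : ℕ) (hfr : finrank ℝ X = n) (hn : 3 ≤ n) :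
    (sysHyp X n).encard ≤ (((4 * n) ^ (n ^ 2) : ℕ) : ℕ∞) := by
  have hc := sysFun_card h3a h3b X n hfr hn
  have hfin : (sysFun X n).Finite := by
    rw [← encard_lt_top_iff]
    exact lt_of_le_of_lt hc (ENat.natCast_lt_top _)
  have := hfin.fintype
  have hc' : Fintype.card (sysFun X n) ≤ (4 * n) ^ n := by
    have e1 : (sysFun X n).encard = (Fintype.card (sysFun X n) : ℕ∞) := by
      rw [← ENat.card_eq_coe_fintype_card]
      rfl
    rw [e1] at hc
    exact_mod_cast hc
  have hsub : sysHyp X n ⊆ Set.range (fun u : Fin n → sysFun X n =>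
      LinearMap.ker ((∑ j, (u j : X →L[ℝ] ℝ) : X →L[ℝ] ℝ) : X →ₗ[ℝ] ℝ)) := by
    rintro _ ⟨x, u, hS, rfl⟩
    exact ⟨fun j => ⟨u j, x, u, j, hS, rfl⟩, rfl⟩
  refine (encard_le_encard hsub).trans ?_
  rw [← image_univ]
  refine (encard_image_le _ _).trans ?_
  rw [encard_univ, ENat.card_eq_coe_fintype_card]
  have e2 : Fintype.card (Fin n → sysFun X n) ≤ (4 * n) ^ (n ^ 2) := by
    rw [Fintype.card_fun, Fintype.card_fin, sq, pow_mul]
    exact Nat.pow_le_pow_left hc' n
  exact_mod_cast e2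

theorem main : Stm_P1 → Stm_P2 → Stm_P3a → Stm_P3b → Stm_P4 → Stm_P5 → Stm_P6 → Stm_Main := by
  intro h1 h2 h3a h3b h4 h5 h6
  have hlow : ∀ n : ℕ, 3 ≤ n → ((2 ^ (n - 1) : ℕ) : ℕ∞) ≤ NN n := by
    intro n hn
    refine (h6 n hn).trans (le_sSup ?_)
    exact ⟨Fin n → ℝ, inferInstance, inferInstance, by simp, rfl⟩
  refine ⟨fun n hn => ⟨hlow n hn, ?_⟩, ?_, ?_⟩
  · refine sSup_le ?_
    rintro m ⟨X, _, _, hfr, rfl⟩
    exact (encard_le_encard (maxHyp_subset h1 h2 X n hfr hn)).trans (sysHyp_card h3a h3b X n hfr hn)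
  · refine le_antisymm ?_ ?_
    · refine sSup_le ?_
      rintro m ⟨X, _, _, hfr, rfl⟩
      exact (encard_le_encard (maxHyp_subset h1 h2 X 3 hfr le_rfl)).trans (h4 X hfr)
    · exact hlow 3 le_rfl
  · refine le_antisymm ?_ ?_
    · refine sSup_le ?_
      rintro m ⟨X, _, _, hfr, rfl⟩
      exact (encard_le_encard (maxHyp_subset h1 h2 X 4 hfr (by norm_num))).trans (h5 X hfr)
    · exact hlow 4 (by norm_num)

end R197K26
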