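import Pool.Agent.R197.K26.Defs

/-!
Piece P1: minimax and Caratheodory.
-/
set_option autoImplicit false

open Module Set

namespace R197K26

namespace P1aux

variable {V : Type*} [NormedAddCommGroup V] [NormedSpace ℝ V]

theorem hull_step {s : Set V} (hs : IsCompact s) (n : ℕ) :
    ∃ K : Set V, IsCompact K ∧ K ⊆ convexHull ℝ s ∧
      ∀ t : Finset V, (t : Set V) ⊆ s → t.card ≤ n + 1 → convexHull ℝ (t : Set V) ⊆ K := by
  classical
  induction n with
  | zero =>
    refine ⟨s, hs, subset_convexHull ℝ s, fun t hts hcard => ?_⟩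
    rcases Nat.eq_zero_or_pos t.card with h | h
    · rw [Finset.card_eq_zero] at h
      subst h
      simp
    · have h1 : t.card = 1 := by omega
      obtain ⟨x, rfl⟩ := Finset.card_eq_one.1 h1
      simpa using hts
  | succ n ih =>
    obtain ⟨K, hK, hKs, hKt⟩ := ih
    set f : V × V × ℝ → V := fun p => (1 - p.2.2) • p.1 + p.2.2 • p.2.1 with hf
    have hfc : Continuous f := by fun_prop
    refine ⟨K ∪ f '' (s ×ˢ K ×ˢ Icc (0:ℝ) 1), hK.union
      ((hs.prod (hK.prod isCompact_Icc)).image hfc), ?_, ?_⟩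
    · refine union_subset hKs ?_
      rintro _ ⟨⟨x, y, r⟩, ⟨hx, hy, hr⟩, rfl⟩
      exact (convex_convexHull ℝ s) (subset_convexHull ℝ s hx) (hKs hy)
        (by linarith [hr.2]) hr.1 (by ring)
    · intro t hts hcard
      rcases Nat.lt_or_ge (n + 1) t.card with h | h
      · obtain ⟨x, t', hxt', rfl, hcard'⟩ := Finset.card_eq_succ.1 (show t.card = (n + 1) + 1 by omega)
        have hne : (t' : Set V).Nonempty := by
          rw [Finset.coe_nonempty, ← Finset.card_pos]; omega
        rw [Finset.coe_insert, convexHull_insert hne]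
        intro z hz
        rw [mem_convexJoin] at hz
        obtain ⟨x', hx', y, hy, hz⟩ := hz
        rw [mem_singleton_iff] at hx'
        subst hx'
        have hyK : y ∈ K := hKt t' (fun w hw => hts (by simp [Finset.mem_coe.1 hw])) (by omega) hy
        rw [segment_eq_image] at hz
        obtain ⟨r, hr, rfl⟩ := hz
        refine Or.inr ⟨(x', y, r), ⟨hts (by simp), hyK, hr⟩, rfl⟩
      · exact (hKt t hts h).trans subset_union_left

/-- The convex hull of a compact set in a finite-dimensional space is compact. -/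
theorem compact_hull [FiniteDimensional ℝ V] {s : Set V}
    (hs : IsCompact s) : IsCompact (convexHull ℝ s) := by
  classical
  obtain ⟨K, hK, hKs, hKt⟩ := hull_step hs (Module.finrank ℝ V)
  have : convexHull ℝ s = K := by
    refine Subset.antisymm ?_ hKs
    rw [convexHull_eq_union]
    refine iUnion_subset fun t => iUnion_subset fun hts => iUnion_subset fun hai => ?_
    refine hKt t hts ?_
    have := hai.card_le_finrank_succ
    simpa using this.trans (Nat.succ_le_succ (Submodule.finrank_le _))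
  rw [this]
  exact hK

variable {X : Type*} [NormedAddCommGroup X] [NormedSpace ℝ X]

/-- the operator `x ↦ x - f x • w` -/
noncomputable def T (f : X →L[ℝ] ℝ) (w : X) : X →L[ℝ] X :=
  ContinuousLinearMap.id ℝ X - f.smulRight w

theorem T_apply (f : X →L[ℝ] ℝ) (w x : X) : T f w x = x - f x • w := by
  simp [T]

theorem exists_min [FiniteDimensional ℝ X] (f : X →L[ℝ] ℝ) (hf : f ≠ 0) :
    ∃ w0 : X, f w0 = 1 ∧ ∀ w : X, f w = 1 → ‖T f w0‖ ≤ ‖T f w‖ := by
  have hv : ∃ v, f v ≠ 0 := by
    by_contra h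
    push Not at h
    exact hf (ContinuousLinearMap.ext fun x => by simpa using h x)
  obtain ⟨v, hv⟩ := hv
  set w1 : X := (f v)⁻¹ • v with hw1
  have hfw1 : f w1 = 1 := by
    rw [hw1, map_smul, smul_eq_mul, inv_mul_cancel₀ hv]
  have hfpos : 0 < ‖f‖ := norm_pos_iff.2 hf
  have : ProperSpace X := FiniteDimensional.proper_real X
  set S : Set X := {w | f w = 1} ∩ Metric.closedBall 0 ((1 + ‖T f w1‖) / ‖f‖) with hS
  have hbound : ∀ w : X, ‖f‖ * ‖w‖ ≤ 1 + ‖T f w‖ := by
    intro w
    have h1 : f.smulRight w = ContinuousLinearMap.id ℝ X - T f w := by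
      simp [T]
    have h2 : ‖f.smulRight w‖ = ‖f‖ * ‖w‖ := ContinuousLinearMap.norm_smulRight_apply f w
    rw [← h2, h1]
    refine (norm_sub_le _ _).trans ?_
    gcongr
    exact ContinuousLinearMap.norm_id_le
  have hw1S : w1 ∈ S := by
    refine ⟨hfw1, ?_⟩
    rw [mem_closedBall_zero_iff, le_div_iff₀ hfpos, mul_comm]
    exact hbound w1
  have hSc : IsCompact S := by
    refine (isCompact_closedBall 0 _).inter_left ?_
    exact isClosed_eq f.continuous continuous_const
  have hcont : Continuous fun w : X => ‖T f w‖ := by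
    unfold T
    have : Continuous fun w : X => f.smulRight w := by
      exact (ContinuousLinearMap.smulRightL ℝ X X f).continuous
    exact (continuous_const.sub this).norm
  obtain ⟨w0, hw0, hmin⟩ := hSc.exists_isMinOn ⟨w1, hw1S⟩ hcont.continuousOn
  refine ⟨w0, hw0.1, fun w hw => ?_⟩
  by_cases hwb : w ∈ Metric.closedBall (0 : X) ((1 + ‖T f w1‖) / ‖f‖)
  · exact hmin ⟨hw, hwb⟩
  · rw [mem_closedBall_zero_iff, not_le, div_lt_iff₀ hfpos] at hwb
    have h1 := hbound w
    have h2 : ‖T f w0‖ ≤ ‖T f w1‖ := hmin hw1S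
    nlinarith

end P1aux

open P1aux

theorem P1 : Stm_P1 := by
  intro X _ _ n hn hn2 f hf
  have hfd : FiniteDimensional ℝ X := FiniteDimensional.of_finrank_pos (by omega)
  obtain ⟨w0, hw0, hmin⟩ := exists_min f hf
  set lam : ℝ := ‖T f w0‖ with hlam
  have hlam0 : 0 ≤ lam := norm_nonneg _
  -- relProj ≤ lam
  have hrel : relProj X (LinearMap.ker (f : X →ₗ[ℝ] ℝ)) ≤ lam := by
    refine csInf_le ⟨0, ?_⟩ ?_
    · rintro r ⟨P, -, -, rfl⟩
      exact norm_nonneg _
    · refine ⟨T f w0, fun x => ?_, fun y hy => ?_, rfl⟩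
      · rw [LinearMap.mem_ker]
        show f (T f w0 x) = 0
        rw [T_apply, map_sub, map_smul, hw0]
        simp
      · have hy' : f y = 0 := hy
        rw [T_apply, hy']
        simp
  set N : Submodule ℝ X := LinearMap.ker (f : X →ₗ[ℝ] ℝ) with hN
  have hkn : finrank ℝ N + 1 = n := by
    rw [← hn]
    have hf' : (f : X →ₗ[ℝ] ℝ) ≠ 0 := by
      intro h
      apply hf
      ext x
      exact LinearMap.congr_fun h x
    exact Module.Dual.finrank_ker_add_one_of_ne_zero (f := (f : X →ₗ[ℝ] ℝ)) hf'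
  set k : ℕ := finrank ℝ N with hk
  let b : Basis (Fin k) ℝ N := Module.finBasis ℝ N
  have : ProperSpace X := FiniteDimensional.proper_real X
  have : ProperSpace (X →L[ℝ] ℝ) := FiniteDimensional.proper_real _
  let Phi : X × (X →L[ℝ] ℝ) → ℝ × (Fin k → ℝ) := fun p =>
    (p.2 p.1 - f p.1 * p.2 w0, fun i => f p.1 * p.2 (b i : X))
  have hPhi : Continuous Phi := by
    have h1 : Continuous fun p : X × (X →L[ℝ] ℝ) => p.2 p.1 := by fun_prop
    have h2 : ∀ y : X, Continuous fun p : X × (X →L[ℝ] ℝ) => p.2 y := by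
      intro y
      fun_prop
    have h3 : Continuous fun p : X × (X →L[ℝ] ℝ) => f p.1 := by fun_prop
    refine (h1.sub (h3.mul (h2 w0))).prodMk (continuous_pi fun i => h3.mul (h2 _))
  set B : Set (X × (X →L[ℝ] ℝ)) := Metric.closedBall 0 1 ×ˢ Metric.closedBall 0 1 with hB
  have hBc : IsCompact B := (isCompact_closedBall _ _).prod (isCompact_closedBall _ _)
  have hKc : IsCompact (Phi '' B) := hBc.image hPhi
  have hHc : IsCompact (convexHull ℝ (Phi '' B)) := compact_hull hKc
  have hmem : ((lam, 0) : ℝ × (Fin k → ℝ)) ∈ convexHull ℝ (Phi '' B) := by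
    by_contra hnot
    obtain ⟨psi, u, h1, h2⟩ := geometric_hahn_banach_closed_point
      (convex_convexHull ℝ (Phi '' B)) hHc.isClosed hnot
    set al : ℝ := psi (1, 0) with hal
    let de : Fin k → ℝ := fun i => psi (0, Pi.single i 1)
    have hpsi : ∀ (s : ℝ) (v : Fin k → ℝ), psi (s, v) = s * al + ∑ i, v i * de i := by
      intro s v
      have e1 : ((s, v) : ℝ × (Fin k → ℝ)) = s • ((1, 0) : ℝ × (Fin k → ℝ)) +
          ∑ i, v i • ((0, Pi.single i 1) : ℝ × (Fin k → ℝ)) := by
        ext j
        · simp [Prod.fst_sum]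
        · simp [Prod.snd_sum, Finset.sum_apply, Pi.single_apply]
      rw [e1, map_add, map_smul, map_sum]
      simp only [map_smul, smul_eq_mul]
      rfl
    have hlamu : u < lam * al := by
      have := h2
      rw [hpsi] at this
      simpa using this
    let d : N := ∑ i, de i • b i
    have hkey : ∀ (x : X) (g : X →L[ℝ] ℝ), ‖x‖ ≤ 1 → ‖g‖ ≤ 1 →
        (g x - f x * g w0) * al + f x * g (d : X) < u := by
      intro x g hx hg
      have h3 := h1 (Phi (x, g)) (subset_convexHull ℝ _ ⟨(x, g), ⟨by simpa using hx,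
        by simpa using hg⟩, rfl⟩)
      have h4 : psi (Phi (x, g)) = (g x - f x * g w0) * al + f x * g (d : X) := by
        show psi (g x - f x * g w0, fun i => f x * g (b i : X)) = _
        rw [hpsi]
        congr 1
        have : (d : X) = ∑ i, de i • (b i : X) := by
          simp [d]
        rw [this, map_sum, Finset.mul_sum]
        refine Finset.sum_congr rfl fun i _ => ?_
        rw [map_smul, smul_eq_mul]
        ring
      rw [h4] at h3
      exact h3
    have hu0 : 0 < u := by
      have := hkey 0 0 (by simp) (by simp)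
      simpa using this
    have hal0 : 0 < al := by
      by_contra hc
      push Not at hc
      have : lam * al ≤ 0 := mul_nonpos_of_nonneg_of_nonpos hlam0 hc
      linarith
    set w' : X := w0 - al⁻¹ • (d : X) with hw'
    have hfd' : f (d : X) = 0 := by
      have := d.2
      exact this
    have hfw' : f w' = 1 := by
      rw [hw', map_sub, map_smul, hfd', hw0]
      simp
    have hT : ‖T f w'‖ ≤ u / al := by
      refine ContinuousLinearMap.opNorm_le_of_unit_norm (by positivity) fun x hx => ?_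
      obtain ⟨g, hg1, hg2⟩ := exists_dual_vector'' ℝ (T f w' x)
      have h5 := hkey x g hx.le hg1
      have h6 : g (T f w' x) = ‖T f w' x‖ := by simpa using hg2
      rw [← h6, T_apply, le_div_iff₀ hal0]
      have h7 : g (x - f x • w') * al = (g x - f x * g w0) * al + f x * g (d : X) := by
        rw [hw', map_sub, map_smul, map_sub, map_smul]
        simp only [smul_eq_mul]
        field_simp
        ring
      rw [h7]
      exact h5.le
    have h8 : lam ≤ ‖T f w'‖ := hmin w' hfw'
    have h9 : lam ≤ u / al := h8.trans hT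
    rw [le_div_iff₀ hal0] at h9
    linarith
  obtain ⟨ι, hι, z, w, hz, hai, hwpos, hwsum, hwz⟩ := eq_pos_convex_span_of_mem_convexHull hmem
  have hch : ∀ i : ι, ∃ p : X × (X →L[ℝ] ℝ), p ∈ B ∧ Phi p = z i := fun i => hz ⟨i, rfl⟩
  choose p hp1 hp2 using hch
  have hpx : ∀ i, ‖(p i).1‖ ≤ 1 := fun i => by simpa using (hp1 i).1
  have hpg : ∀ i, ‖(p i).2‖ ≤ 1 := fun i => by simpa using (hp1 i).2
  have hz1 : ∀ i, (z i).1 = (p i).2 (p i).1 - f (p i).1 * (p i).2 w0 := by
    intro i
    rw [← hp2 i]
  have hz2 : ∀ i j, (z i).2 j = f (p i).1 * (p i).2 (b j : X) := by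
    intro i j
    rw [← hp2 i]
  have hzle : ∀ i, (z i).1 ≤ lam := by
    intro i
    rw [hz1 i]
    have h1 : (p i).2 (p i).1 - f (p i).1 * (p i).2 w0 = (p i).2 (T f w0 (p i).1) := by
      rw [T_apply, map_sub, map_smul, smul_eq_mul]
    rw [h1]
    calc (p i).2 (T f w0 (p i).1) ≤ ‖(p i).2 (T f w0 (p i).1)‖ := le_abs_self _
      _ ≤ ‖(p i).2‖ * ‖T f w0 (p i).1‖ := (p i).2.le_opNorm _
      _ ≤ 1 * (lam * 1) := by
          refine mul_le_mul (hpg i) ?_ (norm_nonneg _) zero_le_one
          exact ((T f w0).le_opNorm _).trans (mul_le_mul_of_nonneg_left (hpx i) hlam0)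
      _ = lam := by ring
  have hsum1 : ∑ i, w i * (z i).1 = lam := by
    have := congrArg Prod.fst hwz
    rw [Prod.fst_sum] at this
    simpa using this
  have hsum2 : ∀ j, ∑ i, w i * (z i).2 j = 0 := by
    intro j
    have := congrArg (fun q : ℝ × (Fin k → ℝ) => q.2 j) hwz
    simp only [Prod.snd_sum, Finset.sum_apply] at this
    simpa using this
  have hzeq : ∀ i, (z i).1 = lam := by
    intro i
    have h0 : ∑ i, w i * (lam - (z i).1) = 0 := by
      simp only [mul_sub, Finset.sum_sub_distrib, hsum1, ← Finset.sum_mul, hwsum]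
      ring
    have h1 := (Finset.sum_eq_zero_iff_of_nonneg (fun i _ =>
      mul_nonneg (hwpos i).le (sub_nonneg.2 (hzle i)))).1 h0 i (Finset.mem_univ _)
    rcases mul_eq_zero.1 h1 with h2 | h2
    · exact absurd h2 (hwpos i).ne'
    · linarith
  -- the number of points
  have hcard : Fintype.card ι ≤ n := by
    have h1 := hai.card_le_finrank_succ
    have h2 : vectorSpan ℝ (Set.range z) ≤
        LinearMap.ker (LinearMap.fst ℝ ℝ (Fin k → ℝ)) := by
      rw [vectorSpan_def, Submodule.span_le]
      rintro _ ⟨_, ⟨i, rfl⟩, _, ⟨j, rfl⟩, rfl⟩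
      show (z i -ᵥ z j).1 = 0
      simp [hzeq]
    have h3 : finrank ℝ (LinearMap.ker (LinearMap.fst ℝ ℝ (Fin k → ℝ))) ≤ k := by
      have h4 := LinearMap.finrank_range_add_finrank_ker (LinearMap.fst ℝ ℝ (Fin k → ℝ))
      rw [LinearMap.range_eq_top.2 LinearMap.fst_surjective, finrank_top] at h4
      simp at h4
      omega
    have h4 := Submodule.finrank_mono h2
    omega
  let e : Fin (Fintype.card ι) ≃ ι := (Fintype.equivFin ι).symm
  refine ⟨Fintype.card ι, fun q => w (e q), fun q => (p (e q)).1, fun q => (p (e q)).2,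
    ∑ i, w i * f (p i).1 * (p i).2 w0, hcard, fun q => hwpos _, ?_, fun q => hpx _,
    fun q => hpg _, ?_, ?_⟩
  · rw [← hwsum]
    exact e.sum_comp w
  · have hre : ∑ q, (w (e q) * f (p (e q)).1) • (p (e q)).2 =
        ∑ i, (w i * f (p i).1) • (p i).2 := e.sum_comp fun i => (w i * f (p i).1) • (p i).2
    rw [hre]
    set G : X →L[ℝ] ℝ := ∑ i, (w i * f (p i).1) • (p i).2 with hG
    have hGv : ∀ v, G v = ∑ i, w i * f (p i).1 * (p i).2 v := by
      intro v
      simp [hG]
    have hGb : ∀ j, G (b j : X) = 0 := by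
      intro j
      rw [hGv, ← hsum2 j]
      refine Finset.sum_congr rfl fun i _ => ?_
      rw [hz2]
      ring
    have hGN : ∀ y : N, G (y : X) = 0 := by
      intro y
      have h1 : ((G : X →ₗ[ℝ] ℝ).comp N.subtype) = 0 := by
        refine b.ext fun j => ?_
        simpa using hGb j
      exact LinearMap.congr_fun h1 y
    ext v
    have hvN : v - f v • w0 ∈ N := by
      rw [hN, LinearMap.mem_ker]
      show f (v - f v • w0) = 0
      rw [map_sub, map_smul, hw0]
      simp
    have h1 := hGN ⟨_, hvN⟩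
    simp only [map_sub, map_smul, smul_eq_mul] at h1
    rw [smul_apply, smul_eq_mul, ← hGv w0]
    linarith
  · have h1 : ∑ q, w (e q) * (p (e q)).2 (p (e q)).1 = ∑ i, w i * (p i).2 (p i).1 :=
      e.sum_comp fun i => w i * (p i).2 (p i).1
    rw [h1, ← Finset.sum_sub_distrib]
    have h2 : ∑ i, (w i * (p i).2 (p i).1 - w i * f (p i).1 * (p i).2 w0) = lam := by
      rw [← hsum1]
      refine Finset.sum_congr rfl fun i _ => ?_
      rw [hz1]
      ring
    rw [h2]
    exact hrel

end R197K26
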