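import Pool.Agent.R197.K26.Defs

open Module

namespace R197K26

namespace P2aux

theorem real_part (n m : ℕ) (hn : 3 ≤ n) (hm : m ≤ n) (l a : Fin m → ℝ) (G : Fin m → Fin m → ℝ)
    (c : ℝ) (hl : ∀ k, 0 < l k) (hl1 : ∑ k, l k = 1) (ha : ∀ k, 0 ≤ a k) (hs : 0 < ∑ k, l k * a k)
    (hG : ∀ k j, -1 ≤ G k j) (hG1 : ∀ k, G k k ≤ 1)
    (heq : ∀ j, ∑ k, (l k * a k) * G k j = c * a j)
    (hge : 2 - 2 / (n : ℝ) ≤ ∑ k, l k * G k k - c) :
    m = n ∧ (∀ k, l k = 1 / n) ∧ (∀ k, a k = ∑ k, l k * a k) ∧ c = -(1 - 2 / n) ∧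
      (∀ k, G k k = 1) ∧ ∀ k j, k ≠ j → G k j = -1 := by
  have hn0 : (3 : ℝ) ≤ n := by exact_mod_cast hn
  have hnpos : (0 : ℝ) < n := by linarith
  obtain ⟨s, hsdef⟩ : ∃ s, s = ∑ k, l k * a k := ⟨_, rfl⟩
  rw [← hsdef] at hs ⊢
  obtain ⟨g0, hg0⟩ : ∃ g0 : ℝ, g0 = 1 - 2 / n := ⟨_, rfl⟩
  have hg0pos : 0 < g0 := by
    rw [hg0, sub_pos, div_lt_one hnpos]
    linarith
  obtain ⟨eta, heta⟩ : ∃ eta, eta = ∑ k, l k * (1 - G k k) := ⟨_, rfl⟩
  have heta' : eta = 1 - ∑ k, l k * G k k := by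
    have e0 : ∑ k, l k * (1 - G k k) = ∑ k, l k - ∑ k, l k * G k k := by
      rw [← Finset.sum_sub_distrib]
      refine Finset.sum_congr rfl fun k _ => ?_
      ring
    rw [heta, e0, hl1]
  have hetak : ∀ k, l k * (1 - G k k) ≤ eta := by
    intro k
    rw [heta]
    exact Finset.single_le_sum (f := fun k => l k * (1 - G k k))
      (fun i _ => mul_nonneg (hl i).le (by linarith [hG1 i])) (Finset.mem_univ k)
  have heta0 : 0 ≤ eta := by
    rw [heta]
    exact Finset.sum_nonneg fun i _ => mul_nonneg (hl i).le (by linarith [hG1 i])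
  have hgam : g0 + eta ≤ -c := by
    rw [hg0, heta']
    have : 2 / (n : ℝ) = 2 / n := rfl
    linarith
  -- step 1
  have h1 : ∀ j, a j * (-c + l j * (1 + G j j)) ≤ s := by
    intro j
    have e1 := heq j
    have e2 : ∑ k, (l k * a k) * (G k j + 1) = c * a j + s := by
      rw [← e1, hsdef, ← Finset.sum_add_distrib]
      refine Finset.sum_congr rfl fun k _ => ?_
      ring
    have e3 : (l j * a j) * (G j j + 1) ≤ ∑ k, (l k * a k) * (G k j + 1) :=
      Finset.single_le_sum (f := fun k => (l k * a k) * (G k j + 1))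
        (fun i _ => mul_nonneg (mul_nonneg (hl i).le (ha i)) (by linarith [hG i j]))
        (Finset.mem_univ j)
    rw [e2] at e3
    linarith
  have h2 : ∀ j, a j * (g0 + 2 * l j) ≤ s := by
    intro j
    refine le_trans (mul_le_mul_of_nonneg_left ?_ (ha j)) (h1 j)
    have := hetak j
    linarith
  have hid : ∀ t : ℝ, (g0 * t + 2 / n ^ 2) * (g0 + 2 * t) - t = 2 * g0 * (t - 1 / n) ^ 2 := by
    intro t
    rw [hg0]
    field_simp
    ring
  have h3 : ∀ j, l j * a j ≤ s * (g0 * l j + 2 / n ^ 2) := by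
    intro j
    have hpos : 0 < g0 + 2 * l j := by linarith [hl j]
    refine le_of_mul_le_mul_right ?_ hpos
    have e1 : l j * a j * (g0 + 2 * l j) ≤ l j * s := by
      have := mul_le_mul_of_nonneg_left (h2 j) (hl j).le
      linarith
    have e2 : s * l j ≤ s * ((g0 * l j + 2 / n ^ 2) * (g0 + 2 * l j)) := by
      refine mul_le_mul_of_nonneg_left ?_ hs.le
      have := hid (l j)
      have h0 : 0 ≤ 2 * g0 * (l j - 1 / n) ^ 2 := by positivity
      linarith
    linarith
  have hsum : ∑ j : Fin m, s * (g0 * l j + 2 / n ^ 2) = s * (g0 + 2 * m / n ^ 2) := by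
    rw [← Finset.mul_sum, Finset.sum_add_distrib, ← Finset.mul_sum, hl1, Finset.sum_const,
      Finset.card_univ, Fintype.card_fin, nsmul_eq_mul]
    ring
  have hmn : (m : ℝ) ≤ n := by exact_mod_cast hm
  have h4 : s ≤ s * (g0 + 2 * m / n ^ 2) := by
    rw [← hsum]
    conv_lhs => rw [hsdef]
    exact Finset.sum_le_sum fun j _ => h3 j
  have h5 : (1 : ℝ) ≤ g0 + 2 * m / n ^ 2 := by
    by_contra hcon
    push Not at hcon
    have := mul_lt_mul_of_pos_left hcon hs
    linarith
  have h6 : (n : ℝ) ≤ m := by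
    have e1 : 2 / (n : ℝ) ≤ 2 * m / n ^ 2 := by
      rw [hg0] at h5
      linarith
    rw [div_le_div_iff₀ hnpos (by positivity)] at e1
    have e2 : (n : ℝ) * (n - m) ≤ 0 := by nlinarith
    by_contra hcon
    push Not at hcon
    have : 0 < (n : ℝ) * (n - m) := mul_pos hnpos (by linarith)
    linarith
  have hmeq : m = n := le_antisymm hm (by exact_mod_cast h6)
  have hmr : (m : ℝ) = n := by exact_mod_cast hmeq
  have h7 : ∀ j, l j * a j = s * (g0 * l j + 2 / n ^ 2) := by
    have e1 : ∑ j, l j * a j = ∑ j : Fin m, s * (g0 * l j + 2 / n ^ 2) := by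
      rw [hsum, ← hsdef, hmr, hg0]
      field_simp
      ring
    intro j
    exact (Finset.sum_eq_sum_iff_of_le fun j _ => h3 j).1 e1 j (Finset.mem_univ j)
  have h8 : ∀ j, l j = 1 / n := by
    intro j
    have e1 : l j * a j * (g0 + 2 * l j) ≤ l j * s := by
      have := mul_le_mul_of_nonneg_left (h2 j) (hl j).le
      linarith
    rw [h7 j] at e1
    have e2 : s * (2 * g0 * (l j - 1 / n) ^ 2) ≤ 0 := by
      rw [← hid (l j)]
      linarith
    have e3 : (l j - 1 / n) ^ 2 ≤ 0 := by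
      by_contra hcon
      push Not at hcon
      have : 0 < s * (2 * g0 * (l j - 1 / n) ^ 2) := by positivity
      linarith
    have e4 : l j - 1 / n = 0 := by
      have := sq_nonneg (l j - 1 / (n : ℝ))
      exact pow_eq_zero_iff (two_ne_zero) |>.1 (le_antisymm e3 this)
    linarith
  have h9 : ∀ j, a j = s := by
    intro j
    have e1 := h7 j
    rw [h8 j, hg0] at e1
    field_simp at e1
    have e2 : (n : ℝ) * a j = n * s := by nlinarith
    exact mul_left_cancel₀ hnpos.ne' e2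
  have h10 : ∀ j, -c + (1 / n) * (1 + G j j) ≤ 1 := by
    intro j
    have e1 := h1 j
    rw [h9 j, h8 j] at e1
    have e2 : s * (-c + 1 / n * (1 + G j j)) ≤ s * 1 := by linarith
    exact le_of_mul_le_mul_left e2 hs
  have h11 : ∀ j, eta ≤ (1 / n) * (1 - G j j) := by
    intro j
    have e1 := h10 j
    have e2 : g0 + eta + (1 / n) * (1 + G j j) ≤ 1 := by linarith
    rw [hg0] at e2
    have e3 : (2 : ℝ) / n = (1 / n) * 2 := by ring
    rw [e3] at e2
    linarith
  have h12 : eta = 0 := by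
    have e1 : ∑ j : Fin m, eta ≤ ∑ j, (1 / n : ℝ) * (1 - G j j) :=
      Finset.sum_le_sum fun j _ => h11 j
    have e2 : ∑ j, (1 / n : ℝ) * (1 - G j j) = eta := by
      rw [heta]
      refine Finset.sum_congr rfl fun k _ => ?_
      rw [h8 k]
    rw [e2, Finset.sum_const, Finset.card_univ, Fintype.card_fin, nsmul_eq_mul, hmr] at e1
    nlinarith
  have h13 : ∀ k, G k k = 1 := by
    intro k
    have e1 := h11 k
    rw [h12] at e1
    have e2 := hG1 k
    have e3 := hetak k
    rw [h12, h8 k] at e3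
    have e4 : (1 / n : ℝ) * (1 - G k k) = 0 := le_antisymm e3 e1
    have e5 : (1 / n : ℝ) ≠ 0 := by positivity
    have := (mul_eq_zero.1 e4).resolve_left e5
    linarith
  have hmpos : 0 < m := by omega
  have h14 : -c = g0 := by
    have e1 := h10 ⟨0, hmpos⟩
    rw [h13] at e1
    have e2 : -c ≤ g0 := by
      rw [hg0]
      have e3 : (2 : ℝ) / n = 1 / n * (1 + 1) := by ring
      rw [e3]
      linarith
    rw [h12] at hgam
    linarith
  refine ⟨hmeq, h8, h9, by rw [← hg0]; linarith, h13, ?_⟩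
  intro k j hkj
  have e1 := heq j
  have e2 : ∑ k, (l k * a k) * G k j = (1 / n) * s * ∑ k, G k j := by
    rw [Finset.mul_sum]
    refine Finset.sum_congr rfl fun k _ => ?_
    rw [h8 k, h9 k]
  rw [e2, h9 j] at e1
  have e3 : ∑ k, G k j = 2 - n := by
    have : c = -g0 := by linarith
    rw [this, hg0] at e1
    field_simp at e1
    nlinarith
  have e4 : ∑ i, (G i j + 1) = 2 := by
    rw [Finset.sum_add_distrib, e3, Finset.sum_const, Finset.card_univ, Fintype.card_fin,
      nsmul_eq_mul, hmr]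
    ring
  have e5 : (G k j + 1) + (G j j + 1) ≤ ∑ i, (G i j + 1) := by
    have := Finset.add_le_sum (f := fun i => G i j + 1) (s := Finset.univ)
      (fun i _ => by linarith [hG i j]) (Finset.mem_univ k) (Finset.mem_univ j) hkj
    exact this
  rw [e4, h13 j] at e5
  have := hG k j
  linarith

theorem main_nonneg (X : Type) [NormedAddCommGroup X] [NormedSpace ℝ X] (n m : ℕ)
    (hn : 3 ≤ n) (hm : m ≤ n) (f : X →L[ℝ] ℝ) (hf : f ≠ 0)
    (l : Fin m → ℝ) (x : Fin m → X) (g : Fin m → (X →L[ℝ] ℝ)) (c : ℝ)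
    (hl : ∀ k, 0 < l k) (hl1 : ∑ k, l k = 1) (hx : ∀ k, ‖x k‖ ≤ 1) (hg : ∀ k, ‖g k‖ ≤ 1)
    (heq : ∑ k, (l k * f (x k)) • g k = c • f)
    (hge : 2 - 2 / (n : ℝ) ≤ ∑ k, l k * g k (x k) - c) (hpos : ∀ k, 0 ≤ f (x k)) :
    ∃ (x' : Fin n → X) (u : Fin n → (X →L[ℝ] ℝ)) (b : ℝ),
      b ≠ 0 ∧ IsSys n x' u ∧ ∑ j, u j = b • f := by
  have hn0 : (3 : ℝ) ≤ n := by exact_mod_cast hn
  have hnpos : (0 : ℝ) < n := by linarith
  have hb : ∀ k j, |g k (x j)| ≤ 1 := by
    intro k j
    rw [← Real.norm_eq_abs]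
    refine ((g k).le_opNorm (x j)).trans ?_
    exact mul_le_one₀ (hg k) (norm_nonneg _) (hx j)
  have heval : ∀ y, ∑ k, (l k * f (x k)) * g k y = c * f y := by
    intro y
    have := congrArg (fun F : X →L[ℝ] ℝ => F y) heq
    simpa using this
  have hs0 : 0 ≤ ∑ k, l k * f (x k) :=
    Finset.sum_nonneg fun k _ => mul_nonneg (hl k).le (hpos k)
  have hcneg : c < 0 := by
    have e1 : ∑ k, l k * g k (x k) ≤ 1 := by
      rw [← hl1]
      refine Finset.sum_le_sum fun k _ => ?_
      exact mul_le_of_le_one_right (hl k).le (abs_le.1 (hb k k)).2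
    have e2 : 2 / (n : ℝ) < 1 := by rw [div_lt_one hnpos]; linarith
    linarith
  have hs : 0 < ∑ k, l k * f (x k) := by
    rcases hs0.lt_or_eq with h | h
    · exact h
    · exfalso
      have h1 : ∀ k, l k * f (x k) = 0 := fun k =>
        (Finset.sum_eq_zero_iff_of_nonneg fun k _ => mul_nonneg (hl k).le (hpos k)).1 h.symm k
          (Finset.mem_univ k)
      have h2 : c • f = 0 := by
        rw [← heq]
        refine Finset.sum_eq_zero fun k _ => ?_
        rw [h1 k, zero_smul]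
      rcases smul_eq_zero.1 h2 with h3 | h3
      · exact hcneg.ne h3
      · exact hf h3
  obtain ⟨hmn, e1, e2, e3, e4, e5⟩ := real_part n m hn hm l (fun k => f (x k))
    (fun k j => g k (x j)) c hl hl1 hpos hs (fun k j => (abs_le.1 (hb k j)).1)
    (fun k => (abs_le.1 (hb k k)).2) (fun j => heval (x j)) hge
  subst hmn
  obtain ⟨s, hsdef⟩ : ∃ s, s = ∑ k, l k * f (x k) := ⟨_, rfl⟩
  rw [← hsdef] at hs e2
  have hg0 : (0 : ℝ) < 1 - 2 / m := by
    rw [sub_pos, div_lt_one hnpos]
    linarith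
  refine ⟨x, fun k => -g k, m * (1 - 2 / m) / s, ?_, ⟨hx, fun j => by rw [norm_neg]; exact hg j, ?_⟩,
    ?_⟩
  · positivity
  · intro i j
    by_cases hij : i = j
    · subst hij
      rw [if_pos rfl]
      change -(g i (x i)) = -1
      rw [e4 i]
    · rw [if_neg hij]
      change -(g j (x i)) = 1
      rw [e5 j i (fun h => hij h.symm)]
      norm_num
  · have h1 : ∑ k, ((1 / m : ℝ) * s) • g k = c • f := by
      rw [← heq]
      refine Finset.sum_congr rfl fun k _ => ?_
      rw [e1 k, e2 k]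
    rw [← Finset.smul_sum, e3] at h1
    rw [Finset.sum_neg_distrib]
    have h2 : ∑ k, g k = ((1 / m : ℝ) * s)⁻¹ • (((1 / m : ℝ) * s) • ∑ k, g k) := by
      rw [smul_smul, inv_mul_cancel₀ (by positivity), one_smul]
    rw [h2, h1, smul_smul]
    refine (neg_smul _ f).symm.trans ?_
    congr 1
    field_simp

end P2aux

open P2aux in
theorem P2 : Stm_P2 := by
  intro X _ _ n m hn hm f hf l x g c hl hl1 hx hg heq hge
  let e : Fin m → ℝ := fun k => if f (x k) < 0 then -1 else 1
  have he : ∀ k, e k * e k = 1 := by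
    intro k
    change (if f (x k) < 0 then (-1 : ℝ) else 1) * (if f (x k) < 0 then (-1 : ℝ) else 1) = 1
    split_ifs <;> norm_num
  have hen : ∀ k, ‖e k‖ = 1 := by
    intro k
    change ‖(if f (x k) < 0 then (-1 : ℝ) else 1)‖ = 1
    split_ifs <;> norm_num
  refine main_nonneg X n m hn hm f hf l (fun k => e k • x k) (fun k => e k • g k) c hl hl1
    (fun k => ?_) (fun k => ?_) ?_ ?_ (fun k => ?_)
  · rw [norm_smul, hen, one_mul]; exact hx k
  · rw [norm_smul, hen, one_mul]; exact hg k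
  · rw [← heq]
    refine Finset.sum_congr rfl fun k _ => ?_
    rw [map_smul, smul_smul, smul_eq_mul]
    congr 1
    have := he k
    linear_combination (l k * f (x k)) * this
  · refine hge.trans (le_of_eq ?_)
    congr 1
    refine Finset.sum_congr rfl fun k _ => ?_
    change _ = l k * (e k * g k (e k • x k))
    rw [map_smul, smul_eq_mul]
    have := he k
    linear_combination -(l k * g k (x k)) * this
  · rw [map_smul, smul_eq_mul]
    change 0 ≤ (if f (x k) < 0 then (-1 : ℝ) else 1) * f (x k)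
    split_ifs with h
    · linarith
    · push Not at h
      linarith

end R197K26
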