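import Pool.Agent.R197.K26.Defs

open Module MeasureTheory Set
open scoped ENNReal

namespace R197K26

theorem P3a : Stm_P3a := by
  intro X _ _ n hfr hn x u hS
  have hn0 : (3 : ℝ) ≤ n := by exact_mod_cast hn
  have hev : ∀ (t : Fin n → ℝ) (j : Fin n), u j (∑ i, t i • x i) = ∑ i, t i - 2 * t j := by
    intro t j
    rw [map_sum]
    have h1 : ∀ i, u j (t i • x i) = t i - (if i = j then 2 * t i else 0) := by
      intro i
      rw [map_smul, hS.val, smul_eq_mul]
      split_ifs <;> ring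
    rw [Finset.sum_congr rfl fun i _ => h1 i, Finset.sum_sub_distrib, Finset.sum_ite_eq',
      if_pos (Finset.mem_univ _)]
  have hli : LinearIndependent ℝ x := by
    rw [Fintype.linearIndependent_iff]
    intro t ht
    have h1 : ∀ j, ∑ i, t i = 2 * t j := by
      intro j
      have := hev t j
      rw [ht, map_zero] at this
      linarith
    have h2 : ∑ i, t i = 0 := by
      have e1 : ∑ j : Fin n, ∑ i, t i = ∑ j, 2 * t j := Finset.sum_congr rfl fun j _ => h1 j
      rw [Finset.sum_const, Finset.card_univ, Fintype.card_fin, nsmul_eq_mul, ← Finset.mul_sum] at e1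
      have e2 : ((n : ℝ) - 2) * ∑ i, t i = 0 := by linarith
      rcases mul_eq_zero.1 e2 with h | h
      · linarith
      · exact h
    intro j
    have := h1 j
    rw [h2] at this
    linarith
  refine ⟨hli, fun y hy => ?_⟩
  have : Nonempty (Fin n) := ⟨⟨0, by omega⟩⟩
  let b := basisOfLinearIndependentOfCardEqFinrank hli (by rw [Fintype.card_fin, hfr])
  have hb : ∀ i, b i = x i := fun i => by
    rw [coe_basisOfLinearIndependentOfCardEqFinrank]
  obtain ⟨t, ht⟩ : ∃ t : Fin n → ℝ, y = ∑ i, t i • x i := by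
    refine ⟨fun i => b.repr y i, ?_⟩
    have := b.sum_repr y
    simp only [hb] at this
    exact this.symm
  have hu : ∀ j, |∑ i, t i - 2 * t j| ≤ 1 := by
    intro j
    rw [← hev t j, ← ht, ← Real.norm_eq_abs]
    refine ((u j).le_opNorm y).trans ?_
    exact mul_le_one₀ (hS.norm_u j) (norm_nonneg _) hy
  refine ⟨t, ?_, ht⟩
  obtain ⟨T, hT⟩ : ∃ T, T = ∑ i, t i := ⟨_, rfl⟩
  rw [← hT] at hu
  have h1 : ∑ j : Fin n, (T - 2 * t j) = (n - 2) * T := by
    rw [Finset.sum_sub_distrib, ← Finset.mul_sum, ← hT, Finset.sum_const, Finset.card_univ,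
      Fintype.card_fin, nsmul_eq_mul]
    ring
  have h2 : |((n : ℝ) - 2) * T| ≤ n := by
    rw [← h1]
    refine (Finset.abs_sum_le_sum_abs _ _).trans ?_
    refine (Finset.sum_le_sum fun j _ => hu j).trans ?_
    simp
  have h3 : |T| ≤ 3 := by
    rw [abs_mul, abs_of_pos (by linarith : (0 : ℝ) < n - 2)] at h2
    by_contra hcon
    push Not at hcon
    nlinarith
  intro j
  have h4 := abs_le.1 (hu j)
  have h5 := abs_le.1 h3
  rw [abs_le]
  constructor <;> linarith

theorem P3b : Stm_P3b := by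
  intro X _ _ n hfr hn U hU
  have : FiniteDimensional ℝ X := FiniteDimensional.of_finrank_pos (by omega)
  have hnpos : (0 : ℝ) < n := by exact_mod_cast hn
  let e : X ≃L[ℝ] (Fin n → ℝ) := ContinuousLinearEquiv.ofFinrankEq (by simp [hfr])
  let B : Set (Fin n → ℝ) := e '' Metric.closedBall 0 1
  have hBc : IsCompact B := (isCompact_closedBall 0 1).image e.continuous
  have hBfin : volume B ≠ ⊤ := hBc.measure_lt_top.ne
  have hBpos : volume B ≠ 0 := by
    have h1 : e '' Metric.ball 0 1 ⊆ B := image_mono Metric.ball_subset_closedBall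
    have h2 : IsOpen (e '' Metric.ball (0 : X) 1) := e.toHomeomorph.isOpenMap _ Metric.isOpen_ball
    have h3 : 0 < volume (e '' Metric.ball (0 : X) 1) :=
      h2.measure_pos _ (by
        refine ⟨e 0, mem_image_of_mem _ ?_⟩
        simp)
    exact (h3.trans_le (measure_mono h1)).ne'
  choose! hw p hp1 hp2 hp3 using hU
  let M : (X →L[ℝ] ℝ) → ((Fin n → ℝ) →ₗ[ℝ] (Fin n → ℝ)) := fun w =>
    e.toLinearMap ∘ₗ (∑ k, (LinearMap.proj k : (Fin n → ℝ) →ₗ[ℝ] ℝ).smulRight (p w k))
  have hM : ∀ w t, M w t = e (∑ k, t k • p w k) := by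
    intro w t
    simp [M]
  let Cb : Set (Fin n → ℝ) := Icc (fun _ => -2) (fun _ => 2)
  let Cs : Set (Fin n → ℝ) := Icc (fun _ => 0) (fun _ => 1 / n)
  have hCb : volume Cb = ENNReal.ofReal 4 ^ n := by
    rw [Real.volume_Icc_pi]
    simp
    norm_num
  have hCs : volume Cs = ENNReal.ofReal (1 / n) ^ n := by
    rw [Real.volume_Icc_pi]
    simp
  have hA : ∀ w ∈ U, B ⊆ M w '' Cb := by
    rintro w hwU _ ⟨y, hy, rfl⟩
    obtain ⟨t, ht1, ht2⟩ := hp3 w hwU y (by simpa using hy)
    refine ⟨t, ⟨fun i => (abs_le.1 (ht1 i)).1, fun i => (abs_le.1 (ht1 i)).2⟩, ?_⟩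
    rw [hM, ← ht2]
  have hsum : ∀ t ∈ Cs, ∑ k, t k ≤ 1 := by
    intro t ht
    refine (Finset.sum_le_sum fun k _ => ht.2 k).trans ?_
    rw [Finset.sum_const, Finset.card_univ, Fintype.card_fin, nsmul_eq_mul]
    rw [mul_one_div_cancel hnpos.ne']
  have hBB : ∀ w ∈ U, M w '' Cs ⊆ B := by
    rintro w hwU _ ⟨t, ht, rfl⟩
    rw [hM]
    refine mem_image_of_mem _ ?_
    rw [mem_closedBall_zero_iff]
    refine (norm_sum_le _ _).trans ?_
    refine le_trans (Finset.sum_le_sum fun k _ => ?_) (hsum t ht)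
    rw [norm_smul, Real.norm_of_nonneg (ht.1 k)]
    exact mul_le_of_le_one_right (ht.1 k) (hp1 w hwU k)
  have hvalw : ∀ w ∈ U, ∀ z ∈ M w '' Cs, w (e.symm z) = ‖e.symm z‖ := by
    rintro w hwU _ ⟨t, ht, rfl⟩
    rw [hM, ContinuousLinearEquiv.symm_apply_apply]
    refine le_antisymm ?_ ?_
    · refine (le_abs_self _).trans ?_
      rw [← Real.norm_eq_abs]
      refine (w.le_opNorm _).trans ?_
      exact mul_le_of_le_one_left (norm_nonneg _) (hw w hwU)
    · rw [map_sum]
      refine (norm_sum_le _ _).trans ?_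
      refine Finset.sum_le_sum fun k _ => ?_
      rw [norm_smul, Real.norm_of_nonneg (ht.1 k), map_smul, hp2 w hwU k, smul_eq_mul, mul_one]
      exact mul_le_of_le_one_right (ht.1 k) (hp1 w hwU k)
  have hdisj : ∀ w ∈ U, ∀ w' ∈ U, w ≠ w' → volume (M w '' Cs ∩ M w' '' Cs) = 0 := by
    intro w hwU w' hwU' hne
    have h1 : M w '' Cs ∩ M w' '' Cs ⊆
        (LinearMap.ker (((w - w') : X →L[ℝ] ℝ).toLinearMap ∘ₗ e.symm.toLinearMap) :
          Set (Fin n → ℝ)) := by
      rintro z ⟨hz1, hz2⟩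
      have e1 := hvalw w hwU z hz1
      have e2 := hvalw w' hwU' z hz2
      rw [SetLike.mem_coe, LinearMap.mem_ker]
      change w (e.symm z) - w' (e.symm z) = 0
      rw [e1, e2, sub_self]
    refine measure_mono_null h1 (Measure.addHaar_submodule _ _ ?_)
    intro htop
    apply hne
    ext y
    have h2 : e y ∈ LinearMap.ker (((w - w') : X →L[ℝ] ℝ).toLinearMap ∘ₗ e.symm.toLinearMap) := by
      rw [htop]; trivial
    rw [LinearMap.mem_ker] at h2
    change w (e.symm (e y)) - w' (e.symm (e y)) = 0 at h2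
    rw [ContinuousLinearEquiv.symm_apply_apply] at h2
    linarith
  have hcomp : ∀ w, IsCompact (M w '' Cs) := fun w =>
    isCompact_Icc.image (LinearMap.continuous_of_finiteDimensional (M w))
  have hcard : ∀ F : Finset (X →L[ℝ] ℝ), (∀ w ∈ F, w ∈ U) → F.card ≤ (4 * n) ^ n := by
    intro F hF
    have h1 : volume (⋃ w ∈ F, M w '' Cs) = ∑ w ∈ F, volume (M w '' Cs) := by
      refine measure_biUnion_finset₀ ?_ ?_
      · intro w hwF w' hwF' hne
        exact hdisj w (hF w hwF) w' (hF w' hwF') hne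
      · intro w _
        exact (hcomp w).measurableSet.nullMeasurableSet
    have h2 : volume (⋃ w ∈ F, M w '' Cs) ≤ volume B := by
      refine measure_mono ?_
      refine iUnion₂_subset fun w hwF => hBB w (hF w hwF)
    have h3 : ∀ w ∈ F, volume B ≤ (((4 * n) ^ n : ℕ) : ℝ≥0∞) * volume (M w '' Cs) := by
      intro w hwF
      refine (measure_mono (hA w (hF w hwF))).trans (le_of_eq ?_)
      rw [Measure.addHaar_image_linearMap, Measure.addHaar_image_linearMap, hCb, hCs]
      have h4 : ENNReal.ofReal 4 ^ n = (((4 * n) ^ n : ℕ) : ℝ≥0∞) * ENNReal.ofReal (1 / n) ^ n := by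
        rw [Nat.cast_pow, ← mul_pow, ← ENNReal.ofReal_natCast,
          ← ENNReal.ofReal_mul (by positivity)]
        congr 2
        push_cast
        field_simp
      rw [h4]
      ring
    have h5 : (F.card : ℝ≥0∞) * volume B ≤ (((4 * n) ^ n : ℕ) : ℝ≥0∞) * volume B := by
      calc (F.card : ℝ≥0∞) * volume B = ∑ w ∈ F, volume B := by
            rw [Finset.sum_const, nsmul_eq_mul]
        _ ≤ ∑ w ∈ F, (((4 * n) ^ n : ℕ) : ℝ≥0∞) * volume (M w '' Cs) :=
            Finset.sum_le_sum h3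
        _ = (((4 * n) ^ n : ℕ) : ℝ≥0∞) * ∑ w ∈ F, volume (M w '' Cs) := by
            rw [Finset.mul_sum]
        _ ≤ _ := by
            rw [← h1]
            gcongr
    have h6 := (ENNReal.mul_le_mul_iff_left hBpos hBfin).1 h5
    exact_mod_cast h6
  by_contra hcon
  push Not at hcon
  have h1 : ((((4 * n) ^ n + 1 : ℕ)) : ℕ∞) ≤ U.encard := by
    push_cast
    exact Order.add_one_le_of_lt (by exact_mod_cast hcon)
  obtain ⟨t, ht1, ht2⟩ := exists_subset_encard_eq h1
  have hfin : t.Finite := by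
    rw [← encard_lt_top_iff, ht2]
    exact ENat.coe_lt_top _
  have h2 := hcard hfin.toFinset (fun w hw => ht1 (hfin.mem_toFinset.1 hw))
  have h3 : (hfin.toFinset.card : ℕ∞) = (((4 * n) ^ n + 1 : ℕ) : ℕ∞) := by
    rw [← ht2, hfin.encard_eq_coe_toFinset_card]
  have h4 : hfin.toFinset.card = (4 * n) ^ n + 1 := by exact_mod_cast h3
  omega

end R197K26
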