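import Pool.Agent.R197.K26.Defs

/-!
MP_026d7f_an, piece P4: in dimension three there are at most four hyperplanes.
-/
open Module

namespace R197K26

namespace P4x

variable {X : Type} [NormedAddCommGroup X] [NormedSpace ℝ X]

/-- an extremal system with three elements -/
structure Sys3 (x0 x1 x2 : X) (u0 u1 u2 : X →L[ℝ] ℝ) : Prop where
  n0 : ‖x0‖ ≤ 1
  n1 : ‖x1‖ ≤ 1
  n2 : ‖x2‖ ≤ 1
  m0 : ‖u0‖ ≤ 1
  m1 : ‖u1‖ ≤ 1
  m2 : ‖u2‖ ≤ 1
  v00 : u0 x0 = -1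
  v01 : u0 x1 = 1
  v02 : u0 x2 = 1
  v10 : u1 x0 = 1
  v11 : u1 x1 = -1
  v12 : u1 x2 = 1
  v20 : u2 x0 = 1
  v21 : u2 x1 = 1
  v22 : u2 x2 = -1

theorem ofSys {x : Fin 3 → X} {u : Fin 3 → (X →L[ℝ] ℝ)} (h : IsSys 3 x u) :
    Sys3 (x 0) (x 1) (x 2) (u 0) (u 1) (u 2) := by
  refine ⟨h.norm_x _, h.norm_x _, h.norm_x _, h.norm_u _, h.norm_u _, h.norm_u _,
    ?_, ?_, ?_, ?_, ?_, ?_, ?_, ?_, ?_⟩ <;> rw [h.val] <;> simp

section

variable {x0 x1 x2 y0 y1 y2 : X} {u0 u1 u2 v0 v1 v2 : X →L[ℝ] ℝ}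

theorem Sys3.s01 (h : Sys3 x0 x1 x2 u0 u1 u2) : Sys3 x1 x0 x2 u1 u0 u2 :=
  ⟨h.n1, h.n0, h.n2, h.m1, h.m0, h.m2, h.v11, h.v10, h.v12, h.v01, h.v00, h.v02, h.v21, h.v20,
    h.v22⟩

theorem Sys3.s12 (h : Sys3 x0 x1 x2 u0 u1 u2) : Sys3 x0 x2 x1 u0 u2 u1 :=
  ⟨h.n0, h.n2, h.n1, h.m0, h.m2, h.m1, h.v00, h.v02, h.v01, h.v20, h.v22, h.v21, h.v10, h.v12,
    h.v11⟩

theorem Sys3.neg (h : Sys3 x0 x1 x2 u0 u1 u2) : Sys3 (-x0) (-x1) (-x2) (-u0) (-u1) (-u2) := by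
  obtain ⟨a1, a2, a3, a4, a5, a6, b1, b2, b3, b4, b5, b6, b7, b8, b9⟩ := h
  refine ⟨?_, ?_, ?_, ?_, ?_, ?_, ?_, ?_, ?_, ?_, ?_, ?_, ?_, ?_, ?_⟩ <;>
    simp only [norm_neg, map_neg, _root_.neg_apply, neg_neg] <;> assumption

variable (hX : finrank ℝ X = 3)

include hX in
/-- coordinates -/
theorem Sys3.coord (h : Sys3 x0 x1 x2 u0 u1 u2) (y : X) : ∃ s0 s1 s2 : ℝ,
    y = s0 • x0 + s1 • x1 + s2 • x2 ∧ u0 y = -s0 + s1 + s2 ∧ u1 y = s0 - s1 + s2 ∧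
      u2 y = s0 + s1 - s2 := by
  have hli : LinearIndependent ℝ ![x0, x1, x2] := by
    rw [Fintype.linearIndependent_iff]
    intro g hg
    rw [Fin.sum_univ_three] at hg
    change g 0 • x0 + g 1 • x1 + g 2 • x2 = 0 at hg
    have e0 := congrArg u0 hg
    have e1 := congrArg u1 hg
    have e2 := congrArg u2 hg
    simp only [map_add, map_smul, smul_eq_mul, map_zero, h.v00, h.v01, h.v02, h.v10, h.v11,
      h.v12, h.v20, h.v21, h.v22] at e0 e1 e2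
    intro i
    fin_cases i
    · change g 0 = 0
      linarith
    · change g 1 = 0
      linarith
    · change g 2 = 0
      linarith
  have hfd : FiniteDimensional ℝ X := FiniteDimensional.of_finrank_pos (by omega)
  have hsp := hli.span_eq_top_of_card_eq_finrank (by rw [hX]; rfl)
  have hy : y ∈ Submodule.span ℝ (Set.range ![x0, x1, x2]) := by
    rw [hsp]
    exact Submodule.mem_top
  obtain ⟨c, hc⟩ := (Submodule.mem_span_range_iff_exists_fun ℝ).1 hy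
  rw [Fin.sum_univ_three] at hc
  change c 0 • x0 + c 1 • x1 + c 2 • x2 = y at hc
  refine ⟨c 0, c 1, c 2, hc.symm, ?_, ?_, ?_⟩
  · rw [← hc]
    simp only [map_add, map_smul, smul_eq_mul, h.v00, h.v01, h.v02]
    ring
  · rw [← hc]
    simp only [map_add, map_smul, smul_eq_mul, h.v10, h.v11, h.v12]
    ring
  · rw [← hc]
    simp only [map_add, map_smul, smul_eq_mul, h.v20, h.v21, h.v22]
    ring

include hX in
theorem Sys3.ext (h : Sys3 x0 x1 x2 u0 u1 u2) {w w' : X →L[ℝ] ℝ} (h0 : w x0 = w' x0)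
    (h1 : w x1 = w' x1) (h2 : w x2 = w' x2) : w = w' := by
  ext y
  obtain ⟨s0, s1, s2, hy, -⟩ := h.coord hX y
  rw [hy]
  simp only [map_add, map_smul, h0, h1, h2]

include hX in
theorem Sys3.gauge (h : Sys3 x0 x1 x2 u0 u1 u2) {y : X} (h0 : |u0 y| < 1) (h1 : |u1 y| < 1)
    (h2 : |u2 y| < 1) (hT : |u0 y + u1 y + u2 y| < 1) : ‖y‖ < 1 := by
  obtain ⟨s0, s1, s2, hy, e0, e1, e2⟩ := h.coord hX y
  have b1 : ‖y‖ ≤ |s0| + |s1| + |s2| := by
    rw [hy]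
    refine (norm_add_le _ _).trans (add_le_add ((norm_add_le _ _).trans (add_le_add ?_ ?_)) ?_)
    · rw [norm_smul, Real.norm_eq_abs]
      exact mul_le_of_le_one_right (abs_nonneg _) h.n0
    · rw [norm_smul, Real.norm_eq_abs]
      exact mul_le_of_le_one_right (abs_nonneg _) h.n1
    · rw [norm_smul, Real.norm_eq_abs]
      exact mul_le_of_le_one_right (abs_nonneg _) h.n2
  refine b1.trans_lt ?_
  rw [abs_lt] at h0 h1 h2 hT
  rcases abs_cases s0 with ⟨c0, -⟩ | ⟨c0, -⟩ <;> rcases abs_cases s1 with ⟨c1, -⟩ | ⟨c1, -⟩ <;>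
    rcases abs_cases s2 with ⟨c2, -⟩ | ⟨c2, -⟩ <;> rw [c0, c1, c2] <;> linarith [h0.1, h0.2, h1.1,
      h1.2, h2.1, h2.2, hT.1, hT.2]

theorem ab {w : X →L[ℝ] ℝ} {y : X} (hw : ‖w‖ ≤ 1) (hy : ‖y‖ ≤ 1) : |w y| ≤ 1 := by
  rw [← Real.norm_eq_abs]
  exact (w.le_opNorm y).trans (mul_le_one₀ hw (norm_nonneg _) hy)

theorem strict {w v : X →L[ℝ] ℝ} {p0 p1 p2 : X} {a0 a1 a2 : ℝ} (ha0 : 0 < a0) (ha1 : 0 < a1)
    (ha2 : 0 < a2) (hs : a0 + a1 + a2 = 1) (h0 : w p0 ≤ 1) (h1 : w p1 ≤ 1) (h2 : w p2 ≤ 1)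
    (hsp : ∀ w : X →L[ℝ] ℝ, w p0 = 1 → w p1 = 1 → w p2 = 1 → w = v) (hne : v ≠ w) :
    w (a0 • p0 + a1 • p1 + a2 • p2) < 1 := by
  by_contra hcon
  push Not at hcon
  simp only [map_add, map_smul, smul_eq_mul] at hcon
  have c0 : 0 ≤ a0 * (1 - w p0) := mul_nonneg ha0.le (by linarith)
  have c1 : 0 ≤ a1 * (1 - w p1) := mul_nonneg ha1.le (by linarith)
  have c2 : 0 ≤ a2 * (1 - w p2) := mul_nonneg ha2.le (by linarith)
  have d0 : a0 * (1 - w p0) = 0 := by nlinarith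
  have d1 : a1 * (1 - w p1) = 0 := by nlinarith
  have d2 : a2 * (1 - w p2) = 0 := by nlinarith
  have f0 : w p0 = 1 := by
    rcases mul_eq_zero.1 d0 with h | h
    · exact absurd h ha0.ne'
    · linarith
  have f1 : w p1 = 1 := by
    rcases mul_eq_zero.1 d1 with h | h
    · exact absurd h ha1.ne'
    · linarith
  have f2 : w p2 = 1 := by
    rcases mul_eq_zero.1 d2 with h | h
    · exact absurd h ha2.ne'
    · linarith
  exact hne (hsp w f0 f1 f2).symm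

/-- `w` is up to sign one of the functionals -/
def In (u0 u1 u2 w : X →L[ℝ] ℝ) : Prop :=
  w = u0 ∨ w = u1 ∨ w = u2 ∨ w = -u0 ∨ w = -u1 ∨ w = -u2

include hX in
theorem Sys3.facet (h : Sys3 x0 x1 x2 u0 u1 u2) {v : X →L[ℝ] ℝ} (hv : ‖v‖ ≤ 1) {p0 p1 p2 : X}
    (hp0 : ‖p0‖ ≤ 1) (hp1 : ‖p1‖ ≤ 1) (hp2 : ‖p2‖ ≤ 1) (q0 : v p0 = 1) (q1 : v p1 = 1)
    (q2 : v p2 = 1) (hsp : ∀ w : X →L[ℝ] ℝ, w p0 = 1 → w p1 = 1 → w p2 = 1 → w = v)
    (hne : ¬ In u0 u1 u2 v) :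
    0 < (u0 p0 + u1 p0 + u2 p0) * (u0 p2 + u1 p2 + u2 p2) := by
  unfold In at hne
  push Not at hne
  obtain ⟨k0, k1, k2, k3, k4, k5⟩ := hne
  have a00 := abs_le.1 (ab h.m0 hp0)
  have a01 := abs_le.1 (ab h.m0 hp1)
  have a02 := abs_le.1 (ab h.m0 hp2)
  have a10 := abs_le.1 (ab h.m1 hp0)
  have a11 := abs_le.1 (ab h.m1 hp1)
  have a12 := abs_le.1 (ab h.m1 hp2)
  have a20 := abs_le.1 (ab h.m2 hp0)
  have a21 := abs_le.1 (ab h.m2 hp1)
  have a22 := abs_le.1 (ab h.m2 hp2)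
  have key : ∀ c0 c1 c2 : ℝ, 0 < c0 → 0 < c1 → 0 < c2 → c0 + c1 + c2 = 1 →
      1 ≤ |c0 * (u0 p0 + u1 p0 + u2 p0) + c1 * (u0 p1 + u1 p1 + u2 p1) +
        c2 * (u0 p2 + u1 p2 + u2 p2)| := by
    intro c0 c1 c2 hc0 hc1 hc2 hs
    by_contra hcon
    push Not at hcon
    have s0 := strict hc0 hc1 hc2 hs a00.2 a01.2 a02.2 hsp k0
    have s1 := strict hc0 hc1 hc2 hs a10.2 a11.2 a12.2 hsp k1
    have s2 := strict hc0 hc1 hc2 hs a20.2 a21.2 a22.2 hsp k2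
    have s3 := strict (w := -u0) hc0 hc1 hc2 hs (by rw [_root_.neg_apply]; linarith)
      (by rw [_root_.neg_apply]; linarith)
      (by rw [_root_.neg_apply]; linarith) hsp k3
    have s4 := strict (w := -u1) hc0 hc1 hc2 hs (by rw [_root_.neg_apply]; linarith)
      (by rw [_root_.neg_apply]; linarith)
      (by rw [_root_.neg_apply]; linarith) hsp k4
    have s5 := strict (w := -u2) hc0 hc1 hc2 hs (by rw [_root_.neg_apply]; linarith)
      (by rw [_root_.neg_apply]; linarith)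
      (by rw [_root_.neg_apply]; linarith) hsp k5
    rw [_root_.neg_apply] at s3 s4 s5
    have hg := h.gauge hX (y := c0 • p0 + c1 • p1 + c2 • p2) (abs_lt.2 ⟨by linarith, s0⟩)
      (abs_lt.2 ⟨by linarith, s1⟩) (abs_lt.2 ⟨by linarith, s2⟩) (by
        have e : u0 (c0 • p0 + c1 • p1 + c2 • p2) + u1 (c0 • p0 + c1 • p1 + c2 • p2) +
            u2 (c0 • p0 + c1 • p1 + c2 • p2) =
            c0 * (u0 p0 + u1 p0 + u2 p0) + c1 * (u0 p1 + u1 p1 + u2 p1) +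
              c2 * (u0 p2 + u1 p2 + u2 p2) := by
          simp only [map_add, map_smul, smul_eq_mul]
          ring
        rw [e]
        exact hcon)
    have hv1 : v (c0 • p0 + c1 • p1 + c2 • p2) = 1 := by
      simp only [map_add, map_smul, smul_eq_mul, q0, q1, q2]
      linarith
    have hv2 := v.le_opNorm (c0 • p0 + c1 • p1 + c2 • p2)
    rw [hv1, norm_one] at hv2
    have hv3 : ‖v‖ * ‖c0 • p0 + c1 • p1 + c2 • p2‖ ≤ 1 * ‖c0 • p0 + c1 • p1 + c2 • p2‖ :=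
      mul_le_mul_of_nonneg_right hv (norm_nonneg _)
    linarith
  set T0 := u0 p0 + u1 p0 + u2 p0 with hT0
  set T1 := u0 p1 + u1 p1 + u2 p1 with hT1
  set T2 := u0 p2 + u1 p2 + u2 p2 with hT2
  by_contra hcon
  push Not at hcon
  obtain ⟨μ, hμ0, hμ1, hμ⟩ : ∃ μ : ℝ, 0 ≤ μ ∧ μ ≤ 1 ∧ μ * T0 + (1 - μ) * T2 = 0 := by
    by_cases hz : T0 = T2
    · refine ⟨1, zero_le_one, le_rfl, ?_⟩
      rw [← hz] at hcon
      have : T0 = 0 := by nlinarith [sq_nonneg T0]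
      rw [this]
      ring
    · rcases mul_nonpos_iff.1 hcon with ⟨g1, g2⟩ | ⟨g1, g2⟩
      · have hd : 0 < T0 - T2 := by
          rcases lt_trichotomy T0 T2 with h' | h' | h'
          · linarith
          · exact absurd h' hz
          · linarith
        refine ⟨-T2 / (T0 - T2), div_nonneg (by linarith) hd.le, ?_, ?_⟩
        · rw [div_le_one hd]
          linarith
        · field_simp
          ring
      · have hd : 0 < T2 - T0 := by
          rcases lt_trichotomy T0 T2 with h' | h' | h'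
          · linarith
          · exact absurd h' hz
          · linarith
        refine ⟨T2 / (T2 - T0), div_nonneg g2 hd.le, ?_, ?_⟩
        · rw [div_le_one hd]
          linarith
        · field_simp
          ring
  have h3 := key (3 / 4 * μ + 1 / 12) (1 / 12) (3 / 4 * (1 - μ) + 1 / 12) (by linarith)
    (by norm_num) (by linarith) (by ring)
  have e : (3 / 4 * μ + 1 / 12) * T0 + 1 / 12 * T1 + (3 / 4 * (1 - μ) + 1 / 12) * T2 =
      1 / 12 * (T0 + T1 + T2) := by linear_combination (3 / 4) * hμ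
  rw [e] at h3
  have h4 : |1 / 12 * (T0 + T1 + T2)| < 1 := by
    rw [abs_lt]
    constructor <;> linarith
  linarith

include hX in
theorem Sys3.share (h : Sys3 x0 x1 x2 u0 u1 u2) (h' : Sys3 y0 y1 y2 v0 v1 v2) :
    In u0 u1 u2 v0 ∨ In u0 u1 u2 v1 := by
  by_contra hcon
  push Not at hcon
  obtain ⟨g0, g1⟩ := hcon
  have f1 := h.facet hX h'.m0 (p0 := -y0) (p1 := y1) (p2 := y2) (by rw [norm_neg]; exact h'.n0)
    h'.n1 h'.n2 (by rw [map_neg, h'.v00, neg_neg]) h'.v01 h'.v02 (fun w w0 w1 w2 => by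
      rw [map_neg] at w0
      exact h'.ext hX (by rw [h'.v00]; linarith) (by rw [h'.v01, w1]) (by rw [h'.v02, w2])) g0
  have f2 := h.facet hX h'.m1 (p0 := y0) (p1 := -y1) (p2 := y2) h'.n0 (by rw [norm_neg]; exact h'.n1)
    h'.n2 h'.v10 (by rw [map_neg, h'.v11, neg_neg]) h'.v12 (fun w w0 w1 w2 => by
      rw [map_neg] at w1
      exact h'.ext hX (by rw [h'.v10, w0]) (by rw [h'.v11]; linarith) (by rw [h'.v12, w2])) g1
  rw [map_neg, map_neg, map_neg] at f1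
  nlinarith

/-- the kernel -/
def K (w : X →L[ℝ] ℝ) : Submodule ℝ X := LinearMap.ker (w : X →ₗ[ℝ] ℝ)

theorem K_neg (w : X →L[ℝ] ℝ) : K (-w) = K w := by
  ext y
  unfold K
  rw [LinearMap.mem_ker, LinearMap.mem_ker]
  change -(w y) = 0 ↔ w y = 0
  rw [neg_eq_zero]

/-- a point where all functionals are one -/
def Z1 (u0 u1 u2 : X →L[ℝ] ℝ) : Prop := ∃ z : X, ‖z‖ ≤ 1 ∧ u0 z = 1 ∧ u1 z = 1 ∧ u2 z = 1

/-- hyperplanes of the second type -/
def T2 (u0 u1 u2 : X →L[ℝ] ℝ) (Y : Submodule ℝ X) : Prop :=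
  ∃ α : ℝ, 0 < α ∧ ‖α • (u0 + u1) + u2‖ ≤ 1 ∧
    (∃ z : X, ‖z‖ ≤ 1 ∧ u0 z = 1 ∧ u1 z = 1 ∧ u2 z = 1 - 2 * α) ∧
    Y = K ((1 - α) • (u0 + u1) - u2)

/-- the classification -/
def Cls (u0 u1 u2 : X →L[ℝ] ℝ) (Y : Submodule ℝ X) : Prop :=
  Y = K (u0 + u1 + u2) ∨
  (Z1 u0 u1 u2 ∧ (Y = K (u0 + u1 - u2) ∨ Y = K (u0 - u1 + u2) ∨ Y = K (-u0 + u1 + u2))) ∨
  T2 u0 u1 u2 Y ∨ T2 u0 u2 u1 Y ∨ T2 u1 u2 u0 Y

theorem T2.sw {Y : Submodule ℝ X} (h : T2 u0 u1 u2 Y) : T2 u1 u0 u2 Y := by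
  obtain ⟨α, h1, h2, ⟨z, h3, h4, h5, h6⟩, h7⟩ := h
  rw [add_comm u0 u1] at h2 h7
  exact ⟨α, h1, h2, ⟨z, h3, h5, h4, h6⟩, h7⟩

theorem Cls.s01 {Y : Submodule ℝ X} (h : Cls u0 u1 u2 Y) : Cls u1 u0 u2 Y := by
  rcases h with h | ⟨⟨z, z1, z2, z3, z4⟩, h⟩ | h | h | h
  · left
    rw [h, add_comm u0 u1]
  · right; left
    refine ⟨⟨z, z1, z3, z2, z4⟩, ?_⟩
    rcases h with h | h | h
    · left
      rw [h, add_comm u0 u1]
    · right; right
      rw [h]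
      congr 1
      abel
    · right; left
      rw [h]
      congr 1
      abel
  · exact Or.inr (Or.inr (Or.inl h.sw))
  · exact Or.inr (Or.inr (Or.inr (Or.inr h)))
  · exact Or.inr (Or.inr (Or.inr (Or.inl h)))

theorem Cls.s12 {Y : Submodule ℝ X} (h : Cls u0 u1 u2 Y) : Cls u0 u2 u1 Y := by
  rcases h with h | ⟨⟨z, z1, z2, z3, z4⟩, h⟩ | h | h | h
  · left
    rw [h]
    congr 1
    abel
  · right; left
    refine ⟨⟨z, z1, z2, z4, z3⟩, ?_⟩
    rcases h with h | h | h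
    · right; left
      rw [h]
      congr 1
      abel
    · left
      rw [h]
      congr 1
      abel
    · right; right
      rw [h]
      congr 1
      abel
  · exact Or.inr (Or.inr (Or.inr (Or.inl h)))
  · exact Or.inr (Or.inr (Or.inl h))
  · exact Or.inr (Or.inr (Or.inr (Or.inr h.sw)))

include hX in
theorem Sys3.rep (h : Sys3 x0 x1 x2 u0 u1 u2) (v : X →L[ℝ] ℝ) : v =
    ((v x1 + v x2) / 2) • u0 + ((v x0 + v x2) / 2) • u1 + ((v x0 + v x1) / 2) • u2 := by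
  apply h.ext hX
  · change _ = (v x1 + v x2) / 2 * u0 x0 + (v x0 + v x2) / 2 * u1 x0 + (v x0 + v x1) / 2 * u2 x0
    rw [h.v00, h.v10, h.v20]
    ring
  · change _ = (v x1 + v x2) / 2 * u0 x1 + (v x0 + v x2) / 2 * u1 x1 + (v x0 + v x1) / 2 * u2 x1
    rw [h.v01, h.v11, h.v21]
    ring
  · change _ = (v x1 + v x2) / 2 * u0 x2 + (v x0 + v x2) / 2 * u1 x2 + (v x0 + v x1) / 2 * u2 x2
    rw [h.v02, h.v12, h.v22]
    ring

theorem pm {c c0 : ℝ} (h1 : |c| ≤ 1) (h2 : |c0| ≤ 1) (h : c * c0 = 1) :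
    (c = 1 ∧ c0 = 1) ∨ (c = -1 ∧ c0 = -1) := by
  have h3 : c ^ 2 ≤ 1 := by rw [← sq_abs]; exact pow_le_one₀ (abs_nonneg _) h1
  have h4 : c0 ^ 2 ≤ 1 := by rw [← sq_abs]; exact pow_le_one₀ (abs_nonneg _) h2
  have h5 : c = c0 := by
    have : (c - c0) ^ 2 = 0 := le_antisymm (by nlinarith) (sq_nonneg _)
    exact sub_eq_zero.1 (pow_eq_zero_iff (two_ne_zero)|>.1 this)
  rw [← h5] at h ⊢
  have h6 : (c - 1) * (c + 1) = 0 := by linarith
  rcases mul_eq_zero.1 h6 with h7 | h7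
  · left; constructor <;> linarith
  · right; constructor <;> linarith

theorem pr {c c0 : ℝ} (h1 : |c| ≤ 1) (h2 : |c0| ≤ 1) : c * c0 ≤ 1 := by
  have h3 : |c * c0| ≤ 1 := by
    rw [abs_mul]
    exact mul_le_one₀ h1 (abs_nonneg _) h2
  exact (abs_le.1 h3).2

include hX in
theorem stepA (h : Sys3 x0 x1 x2 u0 u1 u2) (h' : Sys3 y0 y1 y2 v0 v1 v2) (e0 : v0 = u0)
    (e1 : v1 = u1 ∨ v1 = -u1) : Cls u0 u1 u2 (K (v0 + v1 + v2)) := by
  subst e0
  have r0 := ab h'.m2 h.n0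
  have r1 := ab h'.m2 h.n1
  have r2 := ab h'.m2 h.n2
  have w0 := ab h.m2 h'.n0
  have w1 := ab h.m2 h'.n1
  have w2 := ab h.m2 h'.n2
  obtain ⟨a, ha⟩ : ∃ a, a = (v2 x1 + v2 x2) / 2 := ⟨_, rfl⟩
  obtain ⟨b, hb⟩ : ∃ b, b = (v2 x0 + v2 x2) / 2 := ⟨_, rfl⟩
  obtain ⟨c, hc⟩ : ∃ c, c = (v2 x0 + v2 x1) / 2 := ⟨_, rfl⟩
  have hv := h.rep hX v2
  rw [← ha, ← hb, ← hc] at hv
  have hc1 : |c| ≤ 1 := by
    rw [abs_le] at r0 r1 ⊢
    constructor <;> linarith [r0.1, r0.2, r1.1, r1.2]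
  have f0 : v2 y0 = a * v0 y0 + b * u1 y0 + c * u2 y0 := by
    conv_lhs => rw [hv]
    rfl
  have f1 : v2 y1 = a * v0 y1 + b * u1 y1 + c * u2 y1 := by
    conv_lhs => rw [hv]
    rfl
  have f2 : v2 y2 = a * v0 y2 + b * u1 y2 + c * u2 y2 := by
    conv_lhs => rw [hv]
    rfl
  rw [h'.v20, h'.v00] at f0
  rw [h'.v21, h'.v01] at f1
  rw [h'.v22, h'.v02] at f2
  have p0 := pr hc1 w0
  have p1 := pr hc1 w1
  rw [abs_le] at r0 r1 r2
  rcases e1 with e1 | e1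
  · subst e1
    rw [h'.v10] at f0
    rw [h'.v11] at f1
    rw [h'.v12] at f2
    have q0 : c * u2 y0 = 1 := by linarith
    have hab : a = b := by linarith
    subst hab
    rcases pm hc1 w0 q0 with ⟨hc', -⟩ | ⟨hc', -⟩
    · -- `c = 1`
      have ha0 : a = 0 := by
        rw [abs_le] at w2
        rw [hc'] at f2
        have : 0 ≤ a := by linarith [r2.1]
        linarith [w2.1]
      rw [ha0, hc', zero_smul, zero_smul, zero_add, zero_add, one_smul] at hv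
      left
      rw [hv]
    · -- `c = -1`
      rw [hc'] at f2 hv
      have ha0 : a ≤ 0 := by linarith [r2.2]
      have hz : u2 y2 = 1 - 2 * (-a) := by linarith
      have hs : v0 + v1 + v2 = (1 - (-a)) • (v0 + v1) - u2 := by
        rw [hv]
        module
      rcases ha0.lt_or_eq with h0 | h0
      · right; right; left
        refine ⟨-a, by linarith, ?_, ⟨y2, h'.n2, h'.v02, h'.v12, hz⟩, by rw [hs]⟩
        have e : -a • (v0 + v1) + u2 = -v2 := by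
          rw [hv]
          module
        rw [e, norm_neg]
        exact h'.m2
      · right; left
        refine ⟨⟨y2, h'.n2, h'.v02, h'.v12, by rw [hz, h0]; ring⟩, Or.inl ?_⟩
        rw [hs, h0]
        congr 1
        module
  · have g0 : u1 y0 = -1 := by
      have := h'.v10
      rw [e1] at this
      change -(u1 y0) = 1 at this
      linarith
    have g1 : u1 y1 = 1 := by
      have := h'.v11
      rw [e1] at this
      change -(u1 y1) = -1 at this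
      linarith
    rw [g0] at f0
    rw [g1] at f1
    have q0 : c * u2 y0 = 1 := by linarith
    have q1 : c * u2 y1 = 1 := by linarith
    have hab : b = -a := by linarith
    rcases pm hc1 w0 q0 with ⟨hc', hc0⟩ | ⟨hc', hc0⟩
    · have ha0 : a = 0 := by linarith [r0.2, r1.2]
      have hc2 : u2 y1 = 1 := by rw [hc'] at q1; linarith
      right; left
      refine ⟨⟨y1, h'.n1, h'.v01, g1, hc2⟩, Or.inr (Or.inl ?_)⟩
      have hv2 : v2 = u2 := by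
        rw [hv, hab, ha0, hc']
        module
      rw [hv2, e1]
      congr 1
    · have ha0 : a = 0 := by linarith [r0.1, r1.1]
      right; left
      refine ⟨⟨-y0, by rw [norm_neg]; exact h'.n0, by rw [map_neg, h'.v00, neg_neg],
        by rw [map_neg, g0, neg_neg], by rw [map_neg, hc0, neg_neg]⟩, Or.inr (Or.inr ?_)⟩
      have hv2 : v2 = -u2 := by
        rw [hv, hab, ha0, hc']
        module
      rw [hv2, e1, ← K_neg]
      congr 1
      module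

include hX in
theorem stepB1 (h : Sys3 x0 x1 x2 u0 u1 u2) (h' : Sys3 y0 y1 y2 v0 v1 v2) (e0 : v0 = u0)
    (i1 : In u0 u1 u2 v1) : Cls u0 u1 u2 (K (v0 + v1 + v2)) := by
  rcases i1 with i | i | i | i | i | i
  · have h1 := h'.v10
    rw [i, ← e0, h'.v00] at h1
    norm_num at h1
  · exact stepA hX h h' e0 (Or.inl i)
  · exact (stepA hX h.s12 h' e0 (Or.inl i)).s12
  · have h1 := h'.v12
    rw [i, ← e0] at h1
    change -(v0 y2) = 1 at h1
    rw [h'.v02] at h1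
    norm_num at h1
  · exact stepA hX h h' e0 (Or.inr i)
  · exact (stepA hX h.s12 h' e0 (Or.inr i)).s12

theorem In.s01 {w : X →L[ℝ] ℝ} (h : In u0 u1 u2 w) : In u1 u0 u2 w := by
  unfold In at h ⊢
  tauto

theorem In.s12 {w : X →L[ℝ] ℝ} (h : In u0 u1 u2 w) : In u0 u2 u1 w := by
  unfold In at h ⊢
  tauto

theorem In.neg {w : X →L[ℝ] ℝ} (h : In u0 u1 u2 w) : In u0 u1 u2 (-w) := by
  rcases h with h | h | h | h | h | h
  · exact Or.inr (Or.inr (Or.inr (Or.inl (by rw [h]))))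
  · exact Or.inr (Or.inr (Or.inr (Or.inr (Or.inl (by rw [h])))))
  · exact Or.inr (Or.inr (Or.inr (Or.inr (Or.inr (by rw [h])))))
  · exact Or.inl (by rw [h, neg_neg])
  · exact Or.inr (Or.inl (by rw [h, neg_neg]))
  · exact Or.inr (Or.inr (Or.inl (by rw [h, neg_neg])))

include hX in
theorem stepB2 (h : Sys3 x0 x1 x2 u0 u1 u2) (h' : Sys3 y0 y1 y2 v0 v1 v2)
    (i0 : v0 = u0 ∨ v0 = u1 ∨ v0 = u2) (i1 : In u0 u1 u2 v1) :
    Cls u0 u1 u2 (K (v0 + v1 + v2)) := by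
  rcases i0 with i | i | i
  · exact stepB1 hX h h' i i1
  · exact (stepB1 hX h.s01 h' i i1.s01).s01
  · exact (stepB1 hX h.s12.s01 h' i i1.s12.s01).s01.s12

include hX in
theorem stepB3 (h : Sys3 x0 x1 x2 u0 u1 u2) (h' : Sys3 y0 y1 y2 v0 v1 v2)
    (i0 : In u0 u1 u2 v0) (i1 : In u0 u1 u2 v1) : Cls u0 u1 u2 (K (v0 + v1 + v2)) := by
  have hn : (-v0 = u0 ∨ -v0 = u1 ∨ -v0 = u2) → Cls u0 u1 u2 (K (v0 + v1 + v2)) := by
    intro i
    have h1 := stepB2 hX h h'.neg i i1.neg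
    have e : -v0 + -v1 + -v2 = -(v0 + v1 + v2) := by abel
    rw [e, K_neg] at h1
    exact h1
  rcases i0 with i | i | i | i | i | i
  · exact stepB2 hX h h' (Or.inl i) i1
  · exact stepB2 hX h h' (Or.inr (Or.inl i)) i1
  · exact stepB2 hX h h' (Or.inr (Or.inr i)) i1
  · exact hn (Or.inl (by rw [i, neg_neg]))
  · exact hn (Or.inr (Or.inl (by rw [i, neg_neg])))
  · exact hn (Or.inr (Or.inr (by rw [i, neg_neg])))

include hX in
theorem stepC (h : Sys3 x0 x1 x2 u0 u1 u2) (h' : Sys3 y0 y1 y2 v0 v1 v2) :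
    Cls u0 u1 u2 (K (v0 + v1 + v2)) := by
  have c01 := h.share hX h'
  have c02 := h.share hX h'.s12
  have c12 := h.share hX h'.s01.s12
  have e1 : v0 + v1 + v2 = v0 + v2 + v1 := by abel
  have e2 : v0 + v1 + v2 = v1 + v2 + v0 := by abel
  rcases c01 with c | c
  · rcases c12 with d | d
    · exact stepB3 hX h h' c d
    · rw [e1]
      exact stepB3 hX h h'.s12 c d
  · rcases c02 with d | d
    · exact stepB3 hX h h' d c
    · rw [e2]
      exact stepB3 hX h h'.s01.s12 c d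

theorem T2.uniq {Y Y' : Submodule ℝ X} (h : T2 u0 u1 u2 Y) (h' : T2 u0 u1 u2 Y') : Y = Y' := by
  have key : ∀ α β : ℝ, ‖β • (u0 + u1) + u2‖ ≤ 1 →
      (∃ z : X, ‖z‖ ≤ 1 ∧ u0 z = 1 ∧ u1 z = 1 ∧ u2 z = 1 - 2 * α) → β ≤ α := by
    rintro α β h1 ⟨z, z1, z2, z3, z4⟩
    have h2 := (abs_le.1 (ab h1 z1)).2
    change β * (u0 z + u1 z) + u2 z ≤ 1 at h2
    rw [z2, z3, z4] at h2
    linarith
  obtain ⟨α, -, h2, h3, h4⟩ := h
  obtain ⟨β, -, k2, k3, k4⟩ := h'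
  have e : α = β := le_antisymm (key β α h2 k3) (key α β k2 h3)
  rw [h4, k4, e]

theorem no_T2 {Y : Submodule ℝ X} (hz : Z1 u0 u1 u2) (h : T2 u0 u1 u2 Y) : False := by
  obtain ⟨z, z1, z2, z3, z4⟩ := hz
  obtain ⟨α, h1, h2, -⟩ := h
  have h3 := (abs_le.1 (ab h2 z1)).2
  change α * (u0 z + u1 z) + u2 z ≤ 1 at h3
  rw [z2, z3, z4] at h3
  linarith

end

theorem four {α : Type} (a b c d : α) : ({a, b, c, d} : Set α).encard ≤ 4 := by
  have h1 := Set.encard_insert_le ({b, c, d} : Set α) a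
  have h2 := Set.encard_insert_le ({c, d} : Set α) b
  have h3 := Set.encard_insert_le ({d} : Set α) c
  rw [Set.encard_singleton] at h3
  calc ({a, b, c, d} : Set α).encard ≤ ({b, c, d} : Set α).encard + 1 := h1
    _ ≤ (({c, d} : Set α).encard + 1) + 1 := by gcongr
    _ ≤ ((1 + 1) + 1) + 1 := by gcongr
    _ = 4 := by norm_num

end P4x

open P4x in
/-- P4 -/
theorem P4 : Stm_P4 := by
  intro X _ _ hX
  by_cases hne : ∃ (x : Fin 3 → X) (u : Fin 3 → (X →L[ℝ] ℝ)), IsSys 3 x u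
  swap
  · have : sysHyp X 3 = ∅ := by
      rw [Set.eq_empty_iff_forall_notMem]
      rintro Y ⟨x, u, h, -⟩
      exact hne ⟨x, u, h⟩
    rw [this, Set.encard_empty]
    exact zero_le
  obtain ⟨x, u, hS⟩ := hne
  have h := ofSys hS
  have hall : ∀ Y ∈ sysHyp X 3, Cls (u 0) (u 1) (u 2) Y := by
    rintro Y ⟨x', u', hS', rfl⟩
    have h1 := stepC hX h (ofSys hS')
    have e : (∑ j, u' j : X →L[ℝ] ℝ) = u' 0 + u' 1 + u' 2 := Fin.sum_univ_three _
    rw [e]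
    exact h1
  by_cases hz : Z1 (u 0) (u 1) (u 2)
  · have hz' : Z1 (u 0) (u 2) (u 1) := by
      obtain ⟨z, z1, z2, z3, z4⟩ := hz
      exact ⟨z, z1, z2, z4, z3⟩
    have hz'' : Z1 (u 1) (u 2) (u 0) := by
      obtain ⟨z, z1, z2, z3, z4⟩ := hz
      exact ⟨z, z1, z3, z4, z2⟩
    refine (Set.encard_le_encard (t := {K (u 0 + u 1 + u 2), K (u 0 + u 1 - u 2),
      K (u 0 - u 1 + u 2), K (-u 0 + u 1 + u 2)}) ?_).trans (four _ _ _ _)
    intro Y hY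
    rcases hall Y hY with h1 | ⟨-, h1 | h1 | h1⟩ | h1 | h1 | h1
    · exact Or.inl h1
    · exact Or.inr (Or.inl h1)
    · exact Or.inr (Or.inr (Or.inl h1))
    · exact Or.inr (Or.inr (Or.inr h1))
    · exact absurd h1 (fun h2 => no_T2 hz h2)
    · exact absurd h1 (fun h2 => no_T2 hz' h2)
    · exact absurd h1 (fun h2 => no_T2 hz'' h2)
  · have hsub : sysHyp X 3 ⊆ ({K (u 0 + u 1 + u 2)} ∪ {Y | T2 (u 0) (u 1) (u 2) Y}) ∪
        ({Y | T2 (u 0) (u 2) (u 1) Y} ∪ {Y | T2 (u 1) (u 2) (u 0) Y}) := by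
      intro Y hY
      rcases hall Y hY with h1 | ⟨h1, -⟩ | h1 | h1 | h1
      · exact Or.inl (Or.inl h1)
      · exact absurd h1 hz
      · exact Or.inl (Or.inr h1)
      · exact Or.inr (Or.inl h1)
      · exact Or.inr (Or.inr h1)
    have one : ∀ u0 u1 u2 : X →L[ℝ] ℝ, ({Y | T2 u0 u1 u2 Y} : Set (Submodule ℝ X)).encard ≤ 1 := by
      intro u0 u1 u2
      rw [Set.encard_le_one_iff]
      exact fun Y Y' h1 h2 => T2.uniq h1 h2
    have s0 := Set.encard_singleton (K (u 0 + u 1 + u 2))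
    calc (sysHyp X 3).encard ≤ _ := Set.encard_le_encard hsub
      _ ≤ _ := Set.encard_union_le _ _
      _ ≤ (({K (u 0 + u 1 + u 2)} : Set (Submodule ℝ X)).encard +
          ({Y | T2 (u 0) (u 1) (u 2) Y} : Set (Submodule ℝ X)).encard) +
          (({Y | T2 (u 0) (u 2) (u 1) Y} : Set (Submodule ℝ X)).encard +
          ({Y | T2 (u 1) (u 2) (u 0) Y} : Set (Submodule ℝ X)).encard) :=
        add_le_add (Set.encard_union_le _ _) (Set.encard_union_le _ _)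
      _ ≤ (1 + 1) + (1 + 1) := add_le_add (add_le_add s0.le (one _ _ _))
          (add_le_add (one _ _ _) (one _ _ _))
      _ = 4 := by norm_num

end R197K26
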