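import Mathlib
import Pool.Agent.R197.K26.Defs

open Module

namespace R197K26

namespace P5aux

/-- the core identity -/
lemma core (A a : Fin 4 → Fin 4 → ℝ) (hA : ∀ k j, A k j ^ 2 ≤ 1) (ha : ∀ j k, a j k ^ 2 ≤ 1)
    (hW : ∀ j i, ∑ k, (((1 / 2) * (∑ l, a j l) - a j k) / 2) * A k i = if i = j then -1 else 1) :
    ∀ k j, (A k j ^ 2 = 1 ∧ a j k ^ 2 = 1) ∧
      ((1 / 2) * (∑ l, a j l) - a j k) / 2 = ((∑ i, A k i) - 2 * A k j) / 4 := by
  have key : ∑ k, ∑ j, (((((∑ i, A k i) - 2 * A k j) - 4 * (((1 / 2) * (∑ l, a j l) - a j k) / 2)) ^ 2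
      + 4 * (1 - A k j ^ 2)) + 4 * (1 - a j k ^ 2)) = 0 := by
    have h00 := hW 0 0
    have h01 := hW 0 1
    have h02 := hW 0 2
    have h03 := hW 0 3
    have h10 := hW 1 0
    have h11 := hW 1 1
    have h12 := hW 1 2
    have h13 := hW 1 3
    have h20 := hW 2 0
    have h21 := hW 2 1
    have h22 := hW 2 2
    have h23 := hW 2 3
    have h30 := hW 3 0
    have h31 := hW 3 1
    have h32 := hW 3 2
    have h33 := hW 3 3
    simp only [Fin.sum_univ_four, Fin.isValue, Fin.reduceEq, if_true, if_false] at *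
    linear_combination 8 * (h00 + h11 + h22 + h33) - 8 * (h01 + h02 + h03 + h10 + h12 + h13
      + h20 + h21 + h23 + h30 + h31 + h32)
  have hnn : ∀ k j, 0 ≤ (((((∑ i, A k i) - 2 * A k j) - 4 * (((1 / 2) * (∑ l, a j l) - a j k) / 2)) ^ 2
      + 4 * (1 - A k j ^ 2)) + 4 * (1 - a j k ^ 2)) := by
    intro k j
    have h1 := hA k j
    have h2 := ha j k
    have h3 := sq_nonneg (((∑ i, A k i) - 2 * A k j) - 4 * (((1 / 2) * (∑ l, a j l) - a j k) / 2))
    linarith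
  rw [Finset.sum_eq_zero_iff_of_nonneg (fun k _ => Finset.sum_nonneg (fun j _ => hnn k j))] at key
  intro k j
  have hk := key k (Finset.mem_univ k)
  rw [Finset.sum_eq_zero_iff_of_nonneg (fun j _ => hnn k j)] at hk
  have hkj := hk j (Finset.mem_univ j)
  have h1 := hA k j
  have h2 := ha j k
  have h3 := sq_nonneg (((∑ i, A k i) - 2 * A k j) - 4 * (((1 / 2) * (∑ l, a j l) - a j k) / 2))
  refine ⟨⟨by linarith, by linarith⟩, ?_⟩
  have h4 : (((∑ i, A k i) - 2 * A k j) - 4 * (((1 / 2) * (∑ l, a j l) - a j k) / 2)) ^ 2 = 0 := by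
    linarith
  have h5 := pow_eq_zero_iff (two_ne_zero) |>.1 h4
  linarith

/-- patterns of type A -/
def pA (l k : Fin 4) : ℝ := if l = 0 then 1 else if k = 0 then 1 else if k = l then 1 else -1

/-- patterns of type B -/
def pB (l k : Fin 4) : ℝ := if k = l then -1 else 1

/-- patterns of type C -/
def pC (l k : Fin 4) : ℝ := if k = l then 1 else 0

lemma all4 {P : Fin 4 → Prop} (h0 : P 0) (h1 : P 1) (h2 : P 2) (h3 : P 3) : ∀ k, P k := by
  intro k
  fin_cases k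
  · exact h0
  · exact h1
  · exact h2
  · exact h3

lemma sq_eq_one_iff_of_side {t : ℝ} (h : t ^ 2 = 1) : t = 1 ∨ t = -1 := by
  have h1 : (t - 1) * (t + 1) = 0 := by linear_combination h
  rcases mul_eq_zero.1 h1 with h2 | h2
  · left; linarith
  · right; linarith

lemma sumr2 (A : Fin 4 → Fin 4 → ℝ)
    (hW : ∀ j i, ∑ k, (((∑ i, A k i) - 2 * A k j) / 4) * A k i = if i = j then -1 else 1) :
    ∑ k, (∑ i, A k i) ^ 2 = 16 := by
  have h00 := hW 0 0
  have h01 := hW 0 1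
  have h02 := hW 0 2
  have h03 := hW 0 3
  have h10 := hW 1 0
  have h11 := hW 1 1
  have h12 := hW 1 2
  have h13 := hW 1 3
  have h20 := hW 2 0
  have h21 := hW 2 1
  have h22 := hW 2 2
  have h23 := hW 2 3
  have h30 := hW 3 0
  have h31 := hW 3 1
  have h32 := hW 3 2
  have h33 := hW 3 3
  simp only [Fin.sum_univ_four, Fin.isValue, Fin.reduceEq, if_true, if_false] at *
  linear_combination 2 * (h00 + h11 + h22 + h33 + h01 + h02 + h03 + h10 + h12 + h13
      + h20 + h21 + h23 + h30 + h31 + h32)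

lemma rval (A : Fin 4 → Fin 4 → ℝ) (hs : ∀ k j, A k j = 1 ∨ A k j = -1) (k : Fin 4) :
    (∑ i, A k i) = 4 ∨ (∑ i, A k i) = 2 ∨ (∑ i, A k i) = 0 ∨ (∑ i, A k i) = -2 ∨
      (∑ i, A k i) = -4 := by
  rw [Fin.sum_univ_four]
  rcases hs k 0 with h0 | h0 <;> rcases hs k 1 with h1 | h1 <;> rcases hs k 2 with h2 | h2 <;>
    rcases hs k 3 with h3 | h3 <;> rw [h0, h1, h2, h3] <;> norm_num

lemma cls_r (r : Fin 4 → ℝ)
    (hr : ∀ k, r k = 4 ∨ r k = 2 ∨ r k = 0 ∨ r k = -2 ∨ r k = -4) (hs : ∑ k, r k ^ 2 = 16) :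
    (∃ c : ℝ, c ≠ 0 ∧ ∃ i, ∀ k, r k = c * pA i k) ∨
    (∃ l, ∃ ρ : ℝ, (ρ = 1 ∨ ρ = -1) ∧ ∀ k, r k = (2 * ρ) * pB l k) ∨
    (∃ l, ∃ σ : ℝ, (σ = 1 ∨ σ = -1) ∧ ∀ k, r k = (4 * σ) * pC l k) := by
  rw [Fin.sum_univ_four] at hs
  rcases hr 0 with h0 | h0 | h0 | h0 | h0 <;> rcases hr 1 with h1 | h1 | h1 | h1 | h1 <;>
    rcases hr 2 with h2 | h2 | h2 | h2 | h2 <;> rcases hr 3 with h3 | h3 | h3 | h3 | h3 <;>
    rw [h0, h1, h2, h3] at hs <;> norm_num at hs <;>
  first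
  | (refine Or.inl ⟨2, by norm_num, 0, all4 ?_ ?_ ?_ ?_⟩ <;> simp only [h0, h1, h2, h3, pA, Fin.isValue, Fin.reduceEq, if_true, if_false] <;> norm_num; done)
  | (refine Or.inl ⟨2, by norm_num, 1, all4 ?_ ?_ ?_ ?_⟩ <;> simp only [h0, h1, h2, h3, pA, Fin.isValue, Fin.reduceEq, if_true, if_false] <;> norm_num; done)
  | (refine Or.inl ⟨2, by norm_num, 2, all4 ?_ ?_ ?_ ?_⟩ <;> simp only [h0, h1, h2, h3, pA, Fin.isValue, Fin.reduceEq, if_true, if_false] <;> norm_num; done)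
  | (refine Or.inl ⟨2, by norm_num, 3, all4 ?_ ?_ ?_ ?_⟩ <;> simp only [h0, h1, h2, h3, pA, Fin.isValue, Fin.reduceEq, if_true, if_false] <;> norm_num; done)
  | (refine Or.inl ⟨-2, by norm_num, 0, all4 ?_ ?_ ?_ ?_⟩ <;> simp only [h0, h1, h2, h3, pA, Fin.isValue, Fin.reduceEq, if_true, if_false] <;> norm_num; done)
  | (refine Or.inl ⟨-2, by norm_num, 1, all4 ?_ ?_ ?_ ?_⟩ <;> simp only [h0, h1, h2, h3, pA, Fin.isValue, Fin.reduceEq, if_true, if_false] <;> norm_num; done)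
  | (refine Or.inl ⟨-2, by norm_num, 2, all4 ?_ ?_ ?_ ?_⟩ <;> simp only [h0, h1, h2, h3, pA, Fin.isValue, Fin.reduceEq, if_true, if_false] <;> norm_num; done)
  | (refine Or.inl ⟨-2, by norm_num, 3, all4 ?_ ?_ ?_ ?_⟩ <;> simp only [h0, h1, h2, h3, pA, Fin.isValue, Fin.reduceEq, if_true, if_false] <;> norm_num; done)
  | (refine Or.inr (Or.inl ⟨0, 1, by norm_num, all4 ?_ ?_ ?_ ?_⟩) <;> simp only [h0, h1, h2, h3, pB, Fin.isValue, Fin.reduceEq, if_true, if_false] <;> norm_num; done)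
  | (refine Or.inr (Or.inl ⟨1, 1, by norm_num, all4 ?_ ?_ ?_ ?_⟩) <;> simp only [h0, h1, h2, h3, pB, Fin.isValue, Fin.reduceEq, if_true, if_false] <;> norm_num; done)
  | (refine Or.inr (Or.inl ⟨2, 1, by norm_num, all4 ?_ ?_ ?_ ?_⟩) <;> simp only [h0, h1, h2, h3, pB, Fin.isValue, Fin.reduceEq, if_true, if_false] <;> norm_num; done)
  | (refine Or.inr (Or.inl ⟨3, 1, by norm_num, all4 ?_ ?_ ?_ ?_⟩) <;> simp only [h0, h1, h2, h3, pB, Fin.isValue, Fin.reduceEq, if_true, if_false] <;> norm_num; done)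
  | (refine Or.inr (Or.inl ⟨0, -1, by norm_num, all4 ?_ ?_ ?_ ?_⟩) <;> simp only [h0, h1, h2, h3, pB, Fin.isValue, Fin.reduceEq, if_true, if_false] <;> norm_num; done)
  | (refine Or.inr (Or.inl ⟨1, -1, by norm_num, all4 ?_ ?_ ?_ ?_⟩) <;> simp only [h0, h1, h2, h3, pB, Fin.isValue, Fin.reduceEq, if_true, if_false] <;> norm_num; done)
  | (refine Or.inr (Or.inl ⟨2, -1, by norm_num, all4 ?_ ?_ ?_ ?_⟩) <;> simp only [h0, h1, h2, h3, pB, Fin.isValue, Fin.reduceEq, if_true, if_false] <;> norm_num; done)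
  | (refine Or.inr (Or.inl ⟨3, -1, by norm_num, all4 ?_ ?_ ?_ ?_⟩) <;> simp only [h0, h1, h2, h3, pB, Fin.isValue, Fin.reduceEq, if_true, if_false] <;> norm_num; done)
  | (refine Or.inr (Or.inr ⟨0, 1, by norm_num, all4 ?_ ?_ ?_ ?_⟩) <;> simp only [h0, h1, h2, h3, pC, Fin.isValue, Fin.reduceEq, if_true, if_false] <;> norm_num; done)
  | (refine Or.inr (Or.inr ⟨1, 1, by norm_num, all4 ?_ ?_ ?_ ?_⟩) <;> simp only [h0, h1, h2, h3, pC, Fin.isValue, Fin.reduceEq, if_true, if_false] <;> norm_num; done)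
  | (refine Or.inr (Or.inr ⟨2, 1, by norm_num, all4 ?_ ?_ ?_ ?_⟩) <;> simp only [h0, h1, h2, h3, pC, Fin.isValue, Fin.reduceEq, if_true, if_false] <;> norm_num; done)
  | (refine Or.inr (Or.inr ⟨3, 1, by norm_num, all4 ?_ ?_ ?_ ?_⟩) <;> simp only [h0, h1, h2, h3, pC, Fin.isValue, Fin.reduceEq, if_true, if_false] <;> norm_num; done)
  | (refine Or.inr (Or.inr ⟨0, -1, by norm_num, all4 ?_ ?_ ?_ ?_⟩) <;> simp only [h0, h1, h2, h3, pC, Fin.isValue, Fin.reduceEq, if_true, if_false] <;> norm_num; done)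
  | (refine Or.inr (Or.inr ⟨1, -1, by norm_num, all4 ?_ ?_ ?_ ?_⟩) <;> simp only [h0, h1, h2, h3, pC, Fin.isValue, Fin.reduceEq, if_true, if_false] <;> norm_num; done)
  | (refine Or.inr (Or.inr ⟨2, -1, by norm_num, all4 ?_ ?_ ?_ ?_⟩) <;> simp only [h0, h1, h2, h3, pC, Fin.isValue, Fin.reduceEq, if_true, if_false] <;> norm_num; done)
  | (refine Or.inr (Or.inr ⟨3, -1, by norm_num, all4 ?_ ?_ ?_ ?_⟩) <;> simp only [h0, h1, h2, h3, pC, Fin.isValue, Fin.reduceEq, if_true, if_false] <;> norm_num; done)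

lemma l4 : ∀ l : Fin 4, l = 0 ∨ l = 1 ∨ l = 2 ∨ l = 3 := by decide

lemma pBs (l : Fin 4) : pB l 0 + pB l 1 + pB l 2 + pB l 3 = 2 := by
  rcases l4 l with rfl | rfl | rfl | rfl <;>
    simp only [pB, Fin.isValue, Fin.reduceEq, if_true, if_false] <;> norm_num

lemma pCs (l : Fin 4) : pC l 0 + pC l 1 + pC l 2 + pC l 3 = 1 := by
  rcases l4 l with rfl | rfl | rfl | rfl <;>
    simp only [pC, Fin.isValue, Fin.reduceEq, if_true, if_false] <;> norm_num

lemma claimB (A a : Fin 4 → Fin 4 → ℝ) (hs : ∀ k j, A k j = 1 ∨ A k j = -1)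
    (ha : ∀ j k, a j k = 1 ∨ a j k = -1)
    (haf : ∀ j k, a j k = (∑ l, ((∑ i, A l i) - 2 * A l j) / 4) - ((∑ i, A k i) - 2 * A k j) / 2)
    (l : Fin 4) (ρ : ℝ) (hρ : ρ = 1 ∨ ρ = -1) (hr : ∀ k, ∑ i, A k i = (2 * ρ) * pB l k) :
    ∃ j, ∀ k, A k j = ρ := by
  obtain ⟨j, hj⟩ : ∃ j, A l j = ρ := by
    by_contra hcon
    push Not at hcon
    have h' : ∀ j, A l j = -ρ := by
      intro j
      have h1 := hcon j
      rcases hs l j with h | h <;> rcases hρ with h2 | h2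
      · exact absurd (h.trans h2.symm) h1
      · rw [h, h2]; norm_num
      · rw [h, h2]
      · exact absurd (h.trans h2.symm) h1
    have h3 := hr l
    have hp : pB l l = -1 := by simp [pB]
    rw [Fin.sum_univ_four, h' 0, h' 1, h' 2, h' 3, hp] at h3
    rcases hρ with h2 | h2 <;> rw [h2] at h3 <;> norm_num at h3
  refine ⟨j, ?_⟩
  have e := haf j l
  have hb : ∀ k, -1 ≤ A k j ∧ A k j ≤ 1 := by
    intro k
    rcases hs k j with h | h <;> rw [h] <;> norm_num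
  have hp : pB l l = -1 := by simp [pB]
  have hps := pBs l
  simp only [hr] at e
  rw [Fin.sum_univ_four, hp, hj] at e
  have b0 := hb 0
  have b1 := hb 1
  have b2 := hb 2
  have b3 := hb 3
  have e' : a j l = 3 * ρ - (A 0 j + A 1 j + A 2 j + A 3 j) / 2 := by
    rw [e]
    linear_combination (ρ / 2) * hps
  rcases hρ with h2 | h2 <;> rcases ha j l with h3 | h3 <;> rw [h3, h2] at e' <;> rw [h2]
  · exact all4 (by linarith) (by linarith) (by linarith) (by linarith)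
  · exfalso; linarith
  · exfalso; linarith
  · exact all4 (by linarith) (by linarith) (by linarith) (by linarith)

lemma claimC (A a : Fin 4 → Fin 4 → ℝ) (hs : ∀ k j, A k j = 1 ∨ A k j = -1)
    (ha : ∀ j k, a j k = 1 ∨ a j k = -1)
    (haf : ∀ j k, a j k = (∑ l, ((∑ i, A l i) - 2 * A l j) / 4) - ((∑ i, A k i) - 2 * A k j) / 2)
    (l : Fin 4) (σ : ℝ) (hσ : σ = 1 ∨ σ = -1) (hr : ∀ k, ∑ i, A k i = (4 * σ) * pC l k) :
    ∃ j, ∀ k, ((∑ i, A k i) - 2 * A k j) / 4 = σ / 2 := by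
  have hb : ∀ k j, -1 ≤ A k j ∧ A k j ≤ 1 := by
    intro k j
    rcases hs k j with h | h <;> rw [h] <;> norm_num
  have hp : pC l l = 1 := by simp [pC]
  have hps := pCs l
  have hrow : ∀ j, A l j = σ := by
    have h3 := hr l
    rw [Fin.sum_univ_four, hp] at h3
    have b0 := hb l 0
    have b1 := hb l 1
    have b2 := hb l 2
    have b3 := hb l 3
    rcases hσ with h2 | h2 <;> rw [h2] at h3 ⊢ <;>
      exact all4 (by linarith) (by linarith) (by linarith) (by linarith)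
  have hc : ∀ j, A 0 j + A 1 j + A 2 j + A 3 j = 2 ∨ A 0 j + A 1 j + A 2 j + A 3 j = -2 := by
    intro j
    have e := haf j l
    simp only [hr] at e
    rw [Fin.sum_univ_four, hp, hrow j] at e
    have e' : a j l = - (A 0 j + A 1 j + A 2 j + A 3 j) / 2 := by
      rw [e]
      linear_combination σ * hps
    rcases ha j l with h3 | h3 <;> rw [h3] at e'
    · right; linarith
    · left; linarith
  obtain ⟨j, hj⟩ : ∃ j, A 0 j + A 1 j + A 2 j + A 3 j = -2 * σ := by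
    by_contra hcon
    push Not at hcon
    have h' : ∀ j, A 0 j + A 1 j + A 2 j + A 3 j = 2 * σ := by
      intro j
      have h1 := hcon j
      rcases hc j with h | h <;> rcases hσ with h2 | h2 <;> rw [h2] at h1 ⊢
      · rw [h]; norm_num
      · exfalso; apply h1; rw [h]; norm_num
      · exfalso; apply h1; rw [h]; norm_num
      · rw [h]; norm_num
    have r0 := hr 0
    have r1 := hr 1
    have r2 := hr 2
    have r3 := hr 3
    rw [Fin.sum_univ_four] at r0 r1 r2 r3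
    have c0 := h' 0
    have c1 := h' 1
    have c2 := h' 2
    have c3 := h' 3
    have : 4 * σ * (pC l 0 + pC l 1 + pC l 2 + pC l 3) = 8 * σ := by linarith
    rw [hps] at this
    rcases hσ with h2 | h2 <;> rw [h2] at this <;> norm_num at this
  refine ⟨j, ?_⟩
  have hl := hrow j
  have b0 := hb 0 j
  have b1 := hb 1 j
  have b2 := hb 2 j
  have b3 := hb 3 j
  have r0 := hr 0
  have r1 := hr 1
  have r2 := hr 2
  have r3 := hr 3
  rcases hσ with h2 | h2 <;> rw [h2] at hl hj r0 r1 r2 r3 ⊢ <;>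
    rcases l4 l with rfl | rfl | rfl | rfl <;>
    simp only [pC, Fin.isValue, Fin.reduceEq, if_true, if_false] at hl r0 r1 r2 r3 <;>
    exact all4 (by rw [r0]; linarith) (by rw [r1]; linarith) (by rw [r2]; linarith)
      (by rw [r3]; linarith)

/-- the hyperplane of a combination -/
noncomputable def H {X : Type} [NormedAddCommGroup X] [NormedSpace ℝ X] (u : Fin 4 → (X →L[ℝ] ℝ))
    (e : Fin 4 → ℝ) : Submodule ℝ X := LinearMap.ker ((∑ j, e j • u j : X →L[ℝ] ℝ) : X →ₗ[ℝ] ℝ)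

lemma H_scale {X : Type} [NormedAddCommGroup X] [NormedSpace ℝ X] (u : Fin 4 → (X →L[ℝ] ℝ))
    (e e' : Fin 4 → ℝ) (c : ℝ) (hc : c ≠ 0) (h : ∀ k, e' k = c * e k) : H u e' = H u e := by
  ext y
  simp only [H, LinearMap.mem_ker, ContinuousLinearMap.coe_coe, ContinuousLinearMap.sum_apply,
    ContinuousLinearMap.smul_apply, smul_eq_mul, h]
  rw [show ∑ x, c * e x * (u x) y = c * ∑ x, e x * (u x) y by
    rw [Finset.mul_sum]; exact Finset.sum_congr rfl (fun _ _ => by ring)]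
  simp [hc]

lemma sys_basis {X : Type} [NormedAddCommGroup X] [NormedSpace ℝ X] (hX : finrank ℝ X = 4)
    (x : Fin 4 → X) (u : Fin 4 → (X →L[ℝ] ℝ)) (hS : IsSys 4 x u) (f g : X →L[ℝ] ℝ)
    (h : ∀ i, f (x i) = g (x i)) : f = g := by
  have hli : LinearIndependent ℝ x := by
    rw [Fintype.linearIndependent_iff]
    intro t ht
    have hj : ∀ j, ∑ i, t i * (if i = j then -1 else 1) = 0 := by
      intro j
      have := congrArg (u j) ht
      simpa [map_sum, hS.val] using this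
    have h0 := hj 0
    have h1 := hj 1
    have h2 := hj 2
    have h3 := hj 3
    simp only [Fin.sum_univ_four, Fin.isValue, Fin.reduceEq, if_true, if_false] at h0 h1 h2 h3
    exact all4 (by linarith) (by linarith) (by linarith) (by linarith)
  let b := basisOfLinearIndependentOfCardEqFinrank hli (by simp [hX])
  have : (f : X →ₗ[ℝ] ℝ) = (g : X →ₗ[ℝ] ℝ) := by
    apply b.ext
    intro i
    simpa [b] using h i
  ext y
  exact LinearMap.congr_fun this y

/-- classification of the other systems -/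
lemma classify {X : Type} [NormedAddCommGroup X] [NormedSpace ℝ X] (hX : finrank ℝ X = 4)
    (x : Fin 4 → X) (u : Fin 4 → (X →L[ℝ] ℝ)) (hS : IsSys 4 x u)
    (x' : Fin 4 → X) (u' : Fin 4 → (X →L[ℝ] ℝ)) (hS' : IsSys 4 x' u') :
    (∃ i, LinearMap.ker ((∑ j, u' j : X →L[ℝ] ℝ) : X →ₗ[ℝ] ℝ) = H u (pA i)) ∨
    ((∃ i, LinearMap.ker ((∑ j, u' j : X →L[ℝ] ℝ) : X →ₗ[ℝ] ℝ) = H u (pB i)) ∧
      ∃ z : X, ‖z‖ ≤ 1 ∧ ∀ k, u k z = 1) ∨
    ((∃ i, LinearMap.ker ((∑ j, u' j : X →L[ℝ] ℝ) : X →ₗ[ℝ] ℝ) = H u (pC i)) ∧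
      ‖∑ k, u k‖ ≤ 2) := by
  set A : Fin 4 → Fin 4 → ℝ := fun k j => u k (x' j) with hAdef
  set a : Fin 4 → Fin 4 → ℝ := fun j k => u' j (x k) with hadef
  have bound : ∀ (w : X →L[ℝ] ℝ) (y : X), ‖w‖ ≤ 1 → ‖y‖ ≤ 1 → (w y) ^ 2 ≤ 1 := by
    intro w y hw hy
    have h1 : ‖w y‖ ≤ 1 := by
      calc ‖w y‖ ≤ ‖w‖ * ‖y‖ := w.le_opNorm y
        _ ≤ 1 * 1 := mul_le_mul hw hy (norm_nonneg _) zero_le_one
        _ = 1 := one_mul 1
    rw [Real.norm_eq_abs] at h1
    rw [← sq_abs]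
    nlinarith [abs_nonneg (w y)]
  have hA : ∀ k j, A k j ^ 2 ≤ 1 := fun k j => bound _ _ (hS.norm_u k) (hS'.norm_x j)
  have ha : ∀ j k, a j k ^ 2 ≤ 1 := fun j k => bound _ _ (hS'.norm_u j) (hS.norm_x k)
  have hrep : ∀ j, u' j = ∑ k, (((1 / 2) * (∑ l, a j l) - a j k) / 2) • u k := by
    intro j
    apply sys_basis hX x u hS
    intro i
    simp only [ContinuousLinearMap.sum_apply, ContinuousLinearMap.smul_apply, smul_eq_mul, hS.val]
    change a j i = _
    rcases l4 i with rfl | rfl | rfl | rfl <;>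
      simp only [Fin.sum_univ_four, Fin.isValue, Fin.reduceEq, if_true, if_false] <;> ring
  have hW : ∀ j i, ∑ k, (((1 / 2) * (∑ l, a j l) - a j k) / 2) * A k i
      = if i = j then -1 else 1 := by
    intro j i
    rw [← hS'.val i j, hrep j]
    simp only [ContinuousLinearMap.sum_apply, ContinuousLinearMap.smul_apply, smul_eq_mul, hAdef]
  have hcore := core A a hA ha hW
  have hs : ∀ k j, A k j = 1 ∨ A k j = -1 := fun k j => sq_eq_one_iff_of_side (hcore k j).1.1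
  have has : ∀ j k, a j k = 1 ∨ a j k = -1 := fun j k => sq_eq_one_iff_of_side (hcore k j).1.2
  have hWW : ∀ j k, ((1 / 2) * (∑ l, a j l) - a j k) / 2 = ((∑ i, A k i) - 2 * A k j) / 4 :=
    fun j k => (hcore k j).2
  have hW' : ∀ j i, ∑ k, (((∑ i, A k i) - 2 * A k j) / 4) * A k i = if i = j then -1 else 1 := by
    intro j i
    rw [← hW j i]
    exact Finset.sum_congr rfl (fun k _ => by rw [hWW j k])
  have haf : ∀ j k, a j k = (∑ l, ((∑ i, A l i) - 2 * A l j) / 4)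
      - ((∑ i, A k i) - 2 * A k j) / 2 := by
    intro j k
    have h1 : ∑ l, ((∑ i, A l i) - 2 * A l j) / 4 = ∑ l, ((1 / 2) * (∑ m, a j m) - a j l) / 2 :=
      Finset.sum_congr rfl (fun l _ => (hWW j l).symm)
    rw [h1]
    have h2 := hWW j k
    have h3 : ∑ l, ((1 / 2) * (∑ m, a j m) - a j l) / 2 = (1 / 2) * (∑ m, a j m) := by
      simp only [Fin.sum_univ_four]; ring
    rw [h3]
    linarith
  have hsum : ∑ j, u' j = (1 / 2 : ℝ) • ∑ k, (∑ i, A k i) • u k := by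
    rw [Finset.sum_congr rfl (fun j _ => hrep j), Finset.sum_comm, Finset.smul_sum]
    refine Finset.sum_congr rfl (fun k _ => ?_)
    rw [← Finset.sum_smul, smul_smul]
    congr 1
    rw [Finset.sum_congr rfl (fun j _ => hWW j k)]
    simp only [Fin.sum_univ_four]; ring
  have hker : LinearMap.ker ((∑ j, u' j : X →L[ℝ] ℝ) : X →ₗ[ℝ] ℝ) = H u (fun k => ∑ i, A k i) := by
    rw [hsum]
    ext y
    simp only [H, LinearMap.mem_ker, ContinuousLinearMap.coe_coe, ContinuousLinearMap.smul_apply,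
      smul_eq_mul]
    simp
  rcases cls_r (fun k => ∑ i, A k i) (rval A hs) (sumr2 A hW') with h | h | h
  · obtain ⟨c, hc, i, hi⟩ := h
    exact Or.inl ⟨i, by rw [hker, H_scale u _ _ c hc hi]⟩
  · obtain ⟨l, ρ, hρ, hr⟩ := h
    refine Or.inr (Or.inl ⟨⟨l, ?_⟩, ?_⟩)
    · rw [hker]
      refine H_scale u _ _ (2 * ρ) ?_ hr
      rcases hρ with h2 | h2 <;> rw [h2] <;> norm_num
    · obtain ⟨j, hj⟩ := claimB A a hs has haf l ρ hρ hr
      refine ⟨ρ • x' j, ?_, ?_⟩
      · rcases hρ with h2 | h2 <;> rw [h2] <;> simpa using hS'.norm_x j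
      · intro k
        rw [map_smul, smul_eq_mul]
        change ρ * A k j = 1
        rw [hj k]
        rcases hρ with h2 | h2 <;> rw [h2] <;> norm_num
  · obtain ⟨l, σ, hσ, hr⟩ := h
    refine Or.inr (Or.inr ⟨⟨l, ?_⟩, ?_⟩)
    · rw [hker]
      refine H_scale u _ _ (4 * σ) ?_ hr
      rcases hσ with h2 | h2 <;> rw [h2] <;> norm_num
    · obtain ⟨j, hj⟩ := claimC A a hs has haf l σ hσ hr
      have h1 : u' j = (σ / 2) • ∑ k, u k := by
        rw [hrep j, Finset.smul_sum]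
        refine Finset.sum_congr rfl (fun k _ => ?_)
        rw [hWW j k, hj k]
      have h2 : ∑ k, u k = (2 * σ) • u' j := by
        rw [h1, smul_smul]
        rcases hσ with h2 | h2 <;> rw [h2] <;> norm_num
      rw [h2, norm_smul]
      have h3 := hS'.norm_u j
      have h4 : ‖2 * σ‖ = 2 := by rcases hσ with h2 | h2 <;> rw [h2] <;> norm_num
      rw [h4]
      linarith

end P5aux

open P5aux in
theorem P5 : Stm_P5 := by
  intro X _ _ hX
  by_cases hne : ∃ (x : Fin 4 → X) (u : Fin 4 → (X →L[ℝ] ℝ)), IsSys 4 x u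
  · obtain ⟨x, u, hS⟩ := hne
    classical
    have card8 : ∀ f g : Fin 4 → Submodule ℝ X,
        (Set.range f ∪ Set.range g).encard ≤ 8 := by
      intro f g
      have h4 : ∀ f : Fin 4 → Submodule ℝ X, (Set.range f).encard ≤ 4 := by
        intro f
        have h1 : Set.range f = ((Finset.univ.image f : Finset (Submodule ℝ X)) : Set _) := by
          ext y; simp
        rw [h1, Set.encard_coe_eq_coe_finsetCard]
        have h2 : (Finset.univ.image f).card ≤ 4 := by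
          simpa using Finset.card_image_le (s := Finset.univ) (f := f)
        exact_mod_cast h2
      calc (Set.range f ∪ Set.range g).encard ≤ (Set.range f).encard + (Set.range g).encard :=
            Set.encard_union_le _ _
        _ ≤ 4 + 4 := add_le_add (h4 f) (h4 g)
        _ = 8 := by norm_num
    by_cases hz : ∃ z : X, ‖z‖ ≤ 1 ∧ ∀ k, u k z = 1
    · refine le_trans (Set.encard_le_encard ?_) (card8 (fun i => H u (pA i)) (fun i => H u (pB i)))
      rintro Y ⟨x', u', hS', rfl⟩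
      rcases classify hX x u hS x' u' hS' with h | h | h
      · obtain ⟨i, hi⟩ := h
        exact Or.inl ⟨i, hi.symm⟩
      · obtain ⟨⟨i, hi⟩, _⟩ := h
        exact Or.inr ⟨i, hi.symm⟩
      · exfalso
        obtain ⟨z, hz1, hz2⟩ := hz
        have h1 : (∑ k, u k) z = 4 := by
          simp [ContinuousLinearMap.sum_apply, hz2]
        have h2 : ‖(∑ k, u k) z‖ ≤ ‖∑ k, u k‖ * ‖z‖ := (∑ k, u k).le_opNorm z
        rw [h1] at h2
        have h3 : ‖∑ k, u k‖ * ‖z‖ ≤ 2 * 1 :=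
          mul_le_mul h.2 hz1 (norm_nonneg _) (by norm_num)
        norm_num at h2 h3
        linarith
    · refine le_trans (Set.encard_le_encard ?_) (card8 (fun i => H u (pA i)) (fun i => H u (pC i)))
      rintro Y ⟨x', u', hS', rfl⟩
      rcases classify hX x u hS x' u' hS' with h | h | h
      · obtain ⟨i, hi⟩ := h
        exact Or.inl ⟨i, hi.symm⟩
      · exact absurd h.2 hz
      · obtain ⟨⟨i, hi⟩, _⟩ := h
        exact Or.inr ⟨i, hi.symm⟩
  · have : sysHyp X 4 = ∅ := by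
      ext Y
      simp only [sysHyp, Set.mem_setOf_eq, Set.mem_empty_iff_false, iff_false]
      rintro ⟨x, u, hS, _⟩
      exact hne ⟨x, u, hS⟩
    rw [this]
    simp

end R197K26
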