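import Pool.Agent.R197.K26.Defs

open Module

namespace R197K26

namespace P6aux

variable {n : ℕ}

/-- the functional of a sign vector -/
noncomputable def fe (e : Fin n → ℝ) : (Fin n → ℝ) →L[ℝ] ℝ :=
  ∑ j, e j • (ContinuousLinearMap.proj j : (Fin n → ℝ) →L[ℝ] ℝ)

theorem fe_apply (e x : Fin n → ℝ) : fe e x = ∑ j, e j * x j := by
  simp [fe]

theorem fe_ker_apply (e x : Fin n → ℝ) :
    x ∈ LinearMap.ker ((fe e : (Fin n → ℝ) →L[ℝ] ℝ) : (Fin n → ℝ) →ₗ[ℝ] ℝ) ↔
      ∑ j, e j * x j = 0 := by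
  rw [LinearMap.mem_ker]
  change fe e x = 0 ↔ _
  rw [fe_apply]

theorem relProj_eq (hn : 3 ≤ n) (e : Fin n → ℝ) (he : ∀ i, e i * e i = 1) :
    relProj (Fin n → ℝ) (LinearMap.ker ((fe e : (Fin n → ℝ) →L[ℝ] ℝ) : (Fin n → ℝ) →ₗ[ℝ] ℝ))
      = 2 - 2 / n := by
  have hn0 : (3 : ℝ) ≤ n := by exact_mod_cast hn
  have hnpos : (0 : ℝ) < n := by linarith
  have habs : ∀ i, |e i| = 1 := by
    intro i
    have h1 := abs_mul_abs_self (e i)
    rw [he i] at h1
    have h2 := abs_nonneg (e i)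
    nlinarith
  have hee : ∑ j, e j * e j = n := by
    rw [Finset.sum_congr rfl fun j _ => he j]
    simp
  -- the projection
  let P0 : (Fin n → ℝ) →L[ℝ] (Fin n → ℝ) :=
    ContinuousLinearMap.id ℝ _ - (fe e).smulRight ((1 / n : ℝ) • e)
  have hP0 : ∀ x, P0 x = x - (∑ j, e j * x j) • (1 / n : ℝ) • e := by
    intro x
    change x - (fe e x) • (1 / n : ℝ) • e = _
    rw [fe_apply]
  have hP0mem : ∀ x, P0 x ∈ LinearMap.ker
      ((fe e : (Fin n → ℝ) →L[ℝ] ℝ) : (Fin n → ℝ) →ₗ[ℝ] ℝ) := by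
    intro x
    rw [LinearMap.mem_ker]
    change fe e (P0 x) = 0
    rw [hP0, map_sub, map_smul, map_smul, fe_apply, fe_apply, hee, smul_eq_mul, smul_eq_mul,
      one_div, inv_mul_cancel₀ hnpos.ne', mul_one, sub_self]
  have hP0id : ∀ y ∈ LinearMap.ker
      ((fe e : (Fin n → ℝ) →L[ℝ] ℝ) : (Fin n → ℝ) →ₗ[ℝ] ℝ), P0 y = y := by
    intro y hy
    rw [fe_ker_apply] at hy
    rw [hP0, hy, zero_smul, sub_zero]
  have hP0norm : ‖P0‖ ≤ 2 - 2 / n := by
    have hc : (0 : ℝ) ≤ 2 - 2 / n := by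
      have : 2 / (n : ℝ) < 1 := by rw [div_lt_one hnpos]; linarith
      linarith
    refine ContinuousLinearMap.opNorm_le_bound _ hc fun x => ?_
    rw [pi_norm_le_iff_of_nonneg (mul_nonneg hc (norm_nonneg _))]
    intro i
    rw [hP0]
    have h1 : ∀ j, |e j * x j| ≤ ‖x‖ := by
      intro j
      rw [abs_mul, habs, one_mul]
      exact norm_le_pi_norm x j
    have h2 : (x - (∑ j, e j * x j) • (1 / n : ℝ) • e) i
        = (1 - 1 / n) * x i - (1 / n) * e i * ∑ j ∈ Finset.univ.erase i, e j * x j := by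
      rw [Pi.sub_apply, Pi.smul_apply, Pi.smul_apply, smul_eq_mul, smul_eq_mul,
        ← Finset.add_sum_erase _ _ (Finset.mem_univ i)]
      have := he i
      linear_combination -(1 / n * x i) * this
    rw [h2, Real.norm_eq_abs]
    have h3 : |∑ j ∈ Finset.univ.erase i, e j * x j| ≤ (n - 1) * ‖x‖ := by
      refine (Finset.abs_sum_le_sum_abs _ _).trans ?_
      refine (Finset.sum_le_sum fun j _ => h1 j).trans ?_
      rw [Finset.sum_const, Finset.card_erase_of_mem (Finset.mem_univ i), Finset.card_univ,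
        Fintype.card_fin, nsmul_eq_mul, Nat.cast_sub (by omega), Nat.cast_one]
    have h4 : |x i| ≤ ‖x‖ := norm_le_pi_norm x i
    have h5 : (0 : ℝ) ≤ 1 - 1 / n := by
      rw [sub_nonneg, div_le_one hnpos]
      linarith
    calc |(1 - 1 / n) * x i - (1 / n) * e i * ∑ j ∈ Finset.univ.erase i, e j * x j|
        ≤ |(1 - 1 / n) * x i| + |(1 / n) * e i * ∑ j ∈ Finset.univ.erase i, e j * x j| :=
          abs_sub _ _
      _ = (1 - 1 / n) * |x i| + (1 / n) * |∑ j ∈ Finset.univ.erase i, e j * x j| := by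
          rw [abs_mul, abs_mul, abs_mul, habs, abs_of_nonneg h5,
            abs_of_nonneg (by positivity : (0 : ℝ) ≤ 1 / n), mul_one]
      _ ≤ (1 - 1 / n) * ‖x‖ + (1 / n) * ((n - 1) * ‖x‖) := by
          gcongr
      _ = (2 - 2 / n) * ‖x‖ := by
          field_simp
          ring
  have hbdd : BddBelow {r : ℝ | ∃ P : (Fin n → ℝ) →L[ℝ] (Fin n → ℝ),
      (∀ x, P x ∈ LinearMap.ker ((fe e : (Fin n → ℝ) →L[ℝ] ℝ) : (Fin n → ℝ) →ₗ[ℝ] ℝ)) ∧
      (∀ y ∈ LinearMap.ker ((fe e : (Fin n → ℝ) →L[ℝ] ℝ) : (Fin n → ℝ) →ₗ[ℝ] ℝ), P y = y) ∧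
      r = ‖P‖} := by
    refine ⟨0, ?_⟩
    rintro r ⟨P, _, _, rfl⟩
    exact norm_nonneg _
  refine le_antisymm ?_ ?_
  · refine (csInf_le hbdd ⟨P0, hP0mem, hP0id, rfl⟩).trans hP0norm
  · refine le_csInf ⟨_, P0, hP0mem, hP0id, rfl⟩ ?_
    rintro r ⟨P, hP1, hP2, rfl⟩
    let v : Fin n → ℝ := (1 / n : ℝ) • e
    have hv : ∑ j, e j * v j = 1 := by
      change ∑ j, e j * ((1 / n : ℝ) * e j) = 1
      have : ∀ j, e j * ((1 / n : ℝ) * e j) = 1 / n := by
        intro j
        have := he j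
        linear_combination (1 / n : ℝ) * this
      rw [Finset.sum_congr rfl fun j _ => this j, Finset.sum_const, Finset.card_univ,
        Fintype.card_fin, nsmul_eq_mul, mul_one_div_cancel hnpos.ne']
    let w : Fin n → ℝ := v - P v
    have hw : ∑ j, e j * w j = 1 := by
      have h1 := (fe_ker_apply e (P v)).1 (hP1 v)
      change ∑ j, e j * (v j - P v j) = 1
      have : ∀ j, e j * (v j - P v j) = e j * v j - e j * P v j := fun j => by ring
      rw [Finset.sum_congr rfl fun j _ => this j, Finset.sum_sub_distrib, hv, h1, sub_zero]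
    have hPx : ∀ x, P x = x - (∑ j, e j * x j) • w := by
      intro x
      have h1 : x - (∑ j, e j * x j) • v ∈ LinearMap.ker
          ((fe e : (Fin n → ℝ) →L[ℝ] ℝ) : (Fin n → ℝ) →ₗ[ℝ] ℝ) := by
        rw [LinearMap.mem_ker]
        change fe e (x - (∑ j, e j * x j) • v) = 0
        rw [map_sub, map_smul, fe_apply, fe_apply, hv, smul_eq_mul, mul_one, sub_self]
      have h2 := hP2 _ h1
      rw [map_sub, map_smul, sub_eq_iff_eq_add] at h2
      rw [h2]
      change x - (∑ j, e j * x j) • v + (∑ j, e j * x j) • P v = x - (∑ j, e j * x j) • (v - P v)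
      rw [smul_sub]
      abel
    have hk : ∀ k, 1 + (n - 2) * (e k * w k) ≤ ‖P‖ := by
      intro k
      let z : Fin n → ℝ := Function.update e k (-e k)
      have hz : ‖z‖ ≤ 1 := by
        rw [pi_norm_le_iff_of_nonneg zero_le_one]
        intro i
        change ‖Function.update e k (-e k) i‖ ≤ 1
        by_cases hi : i = k
        · subst hi
          rw [Function.update_self, norm_neg, Real.norm_eq_abs, habs]
        · rw [Function.update_of_ne hi, Real.norm_eq_abs, habs]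
      have hez : ∑ j, e j * z j = n - 2 := by
        have h1 : ∀ j, e j * z j = e j * e j - (if j = k then 2 else 0) := by
          intro j
          change e j * Function.update e k (-e k) j = _
          by_cases hj : j = k
          · subst hj
            rw [Function.update_self, if_pos rfl]
            have := he j
            linear_combination (-2 : ℝ) * this
          · rw [Function.update_of_ne hj, if_neg hj, sub_zero]
        rw [Finset.sum_congr rfl fun j _ => h1 j, Finset.sum_sub_distrib, hee,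
          Finset.sum_ite_eq', if_pos (Finset.mem_univ _)]
      have h1 : P z k = -e k - (n - 2) * w k := by
        rw [hPx z, hez, Pi.sub_apply, Pi.smul_apply, smul_eq_mul]
        change Function.update e k (-e k) k - _ = _
        rw [Function.update_self]
      have h2 : |P z k| ≤ ‖P‖ := by
        rw [← Real.norm_eq_abs]
        refine (norm_le_pi_norm (P z) k).trans ?_
        refine (P.le_opNorm z).trans ?_
        exact mul_le_of_le_one_right (norm_nonneg _) hz
      have h3 : -e k * P z k ≤ |P z k| := by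
        refine (le_abs_self _).trans ?_
        rw [abs_mul, abs_neg, habs, one_mul]
      rw [h1] at h3
      rw [h1] at h2
      refine le_trans (le_of_eq ?_) (h3.trans h2)
      have := he k
      linear_combination -this
    have hsum : ∑ k : Fin n, (1 + ((n : ℝ) - 2) * (e k * w k)) ≤ ∑ k : Fin n, ‖P‖ :=
      Finset.sum_le_sum fun k _ => hk k
    rw [Finset.sum_add_distrib, ← Finset.mul_sum, hw, Finset.sum_const, Finset.sum_const,
      Finset.card_univ, Fintype.card_fin, nsmul_eq_mul, nsmul_eq_mul] at hsum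
    have h5 : (2 - 2 / n : ℝ) * n ≤ ‖P‖ * n := by
      have : (2 - 2 / n : ℝ) * n = 2 * n - 2 := by
        field_simp
      rw [this]
      linarith
    exact le_of_mul_le_mul_right h5 hnpos

theorem fe_ne (hn : 3 ≤ n) (e : Fin n → ℝ) (he : ∀ i, e i * e i = 1) :
    ((fe e : (Fin n → ℝ) →L[ℝ] ℝ) : (Fin n → ℝ) →ₗ[ℝ] ℝ) ≠ 0 := by
  intro h
  have h1 : fe e (Pi.single ⟨0, by omega⟩ 1) = 0 := by
    change ((fe e : (Fin n → ℝ) →L[ℝ] ℝ) : (Fin n → ℝ) →ₗ[ℝ] ℝ) _ = 0
    rw [h]
    rfl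
  rw [fe_apply] at h1
  simp [Pi.single_apply] at h1
  have := he ⟨0, by omega⟩
  rw [h1] at this
  norm_num at this

/-- the sign vector of a Boolean vector, with first entry one -/
def sv (m : ℕ) (b : Fin m → Bool) : Fin (m + 1) → ℝ :=
  Fin.cons 1 (fun i => if b i then 1 else -1)

theorem sv_sq (m : ℕ) (b : Fin m → Bool) (i : Fin (m + 1)) : sv m b i * sv m b i = 1 := by
  refine Fin.cases ?_ (fun j => ?_) i
  · simp [sv]
  · simp only [sv, Fin.cons_succ]
    split_ifs <;> norm_num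

theorem ker_inj (m : ℕ) : Function.Injective fun b : Fin m → Bool =>
    LinearMap.ker ((fe (sv m b) : (Fin (m + 1) → ℝ) →L[ℝ] ℝ) : (Fin (m + 1) → ℝ) →ₗ[ℝ] ℝ) := by
  intro b b' h
  have key : ∀ i : Fin m, sv m b i.succ = sv m b' i.succ := by
    intro i
    let y : Fin (m + 1) → ℝ := Pi.single i.succ 1 - sv m b i.succ • Pi.single 0 1
    have hy : ∀ c : Fin m → Bool, ∑ j, sv m c j * y j = sv m c i.succ - sv m b i.succ := by
      intro c
      rw [Fin.sum_univ_succ]
      have h1 : sv m c 0 * y 0 = -sv m b i.succ := by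
        have : sv m c 0 = 1 := rfl
        simp [y, this]
      have h2 : ∑ j : Fin m, sv m c j.succ * y j.succ = sv m c i.succ := by
        rw [Finset.sum_eq_single i]
        · simp [y]
        · intro j _ hj
          simp [y, Pi.single_apply, hj]
        · intro hh
          exact absurd (Finset.mem_univ i) hh
      rw [h1, h2]
      ring
    have h1 : y ∈ LinearMap.ker
        ((fe (sv m b) : (Fin (m + 1) → ℝ) →L[ℝ] ℝ) : (Fin (m + 1) → ℝ) →ₗ[ℝ] ℝ) := by
      rw [fe_ker_apply, hy, sub_self]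
    have h2 : y ∈ LinearMap.ker
        ((fe (sv m b') : (Fin (m + 1) → ℝ) →L[ℝ] ℝ) : (Fin (m + 1) → ℝ) →ₗ[ℝ] ℝ) := by
      have h3 : LinearMap.ker
        ((fe (sv m b) : (Fin (m + 1) → ℝ) →L[ℝ] ℝ) : (Fin (m + 1) → ℝ) →ₗ[ℝ] ℝ)
        = LinearMap.ker
        ((fe (sv m b') : (Fin (m + 1) → ℝ) →L[ℝ] ℝ) : (Fin (m + 1) → ℝ) →ₗ[ℝ] ℝ) := h
      rwa [← h3]
    rw [fe_ker_apply, hy, sub_eq_zero] at h2
    exact h2.symm
  ext i
  have := key i
  simp only [sv, Fin.cons_succ] at this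
  cases hb : b i <;> cases hb' : b' i <;> simp [hb, hb'] at this ⊢
  · norm_num at this
  · norm_num at this

end P6aux

open P6aux in
theorem P6 : Stm_P6 := by
  intro n hn
  obtain ⟨m, rfl⟩ : ∃ m, n = m + 1 := ⟨n - 1, by omega⟩
  rw [Nat.add_sub_cancel]
  have h1 : Set.range (fun b : Fin m → Bool =>
      LinearMap.ker ((fe (sv m b) : (Fin (m + 1) → ℝ) →L[ℝ] ℝ) : (Fin (m + 1) → ℝ) →ₗ[ℝ] ℝ))
      ⊆ maxHyp (Fin (m + 1) → ℝ) := by
    rintro _ ⟨b, rfl⟩
    refine ⟨Module.Dual.finrank_ker_add_one_of_ne_zero (fe_ne hn _ (sv_sq m b)), ?_⟩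
    change relProj _ _ = _
    rw [relProj_eq hn _ (sv_sq m b), Module.finrank_fin_fun]
  refine le_trans (le_of_eq ?_) (Set.encard_le_encard h1)
  rw [← Set.image_univ, (ker_inj m).encard_image, Set.encard_univ, ENat.card_eq_coe_fintype_card]
  simp

end R197K26
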